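import Pool.Agent.KQB.Defs

set_option autoImplicit false

/-! # KQB ANG : the angular integral, and polar coordinates on the half plane -/

open MeasureTheory Metric Set

namespace KQB

theorem ang_right {t : ℝ} (ht : 0 < t) :
    ∫⁻ φ in Ioc (0 : ℝ) (Real.pi / 2), ENNReal.ofReal (Real.exp (-(t * Real.cos φ))) ≤
      ENNReal.ofReal (Real.pi / (2 * t)) := by
  have hpi := Real.pi_pos
  have hc : Continuous fun φ : ℝ => Real.exp (-(t * (1 - 2 / Real.pi * φ))) := by fun_prop
  have h1 : ∫⁻ φ in Ioc (0 : ℝ) (Real.pi / 2), ENNReal.ofReal (Real.exp (-(t * Real.cos φ))) ≤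
      ∫⁻ φ in Ioc (0 : ℝ) (Real.pi / 2),
        ENNReal.ofReal (Real.exp (-(t * (1 - 2 / Real.pi * φ)))) := by
    apply setLIntegral_mono (by fun_prop)
    intro φ hφ
    apply ENNReal.ofReal_le_ofReal
    apply Real.exp_le_exp.2
    have := Real.one_sub_mul_le_cos hφ.1.le hφ.2
    have := mul_le_mul_of_nonneg_left this ht.le
    linarith
  refine h1.trans ?_
  rw [← ofReal_integral_eq_lintegral_ofReal
    ((hc.integrableOn_Icc (a := 0) (b := Real.pi / 2)).mono_set Ioc_subset_Icc_self)
    (Filter.Eventually.of_forall fun φ => (Real.exp_pos _).le)]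
  apply ENNReal.ofReal_le_ofReal
  rw [← intervalIntegral.integral_of_le (by positivity)]
  have hd : ∀ φ ∈ Set.uIcc (0 : ℝ) (Real.pi / 2),
      HasDerivAt (fun φ => Real.pi / (2 * t) * Real.exp (-(t * (1 - 2 / Real.pi * φ))))
        (Real.exp (-(t * (1 - 2 / Real.pi * φ)))) φ := by
    intro φ _
    have e1 : HasDerivAt (fun φ : ℝ => -(t * (1 - 2 / Real.pi * φ)))
        (-(t * (0 - 2 / Real.pi * 1))) φ :=
      (((hasDerivAt_id φ).const_mul (2 / Real.pi)).const_sub 1 |>.const_mul t |>.neg).congr_deriv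
        (by ring)
    refine (e1.exp.const_mul (Real.pi / (2 * t))).congr_deriv ?_
    field_simp
    ring
  rw [intervalIntegral.integral_eq_sub_of_hasDerivAt hd (hc.intervalIntegrable _ _)]
  have e2 : -(t * (1 - 2 / Real.pi * (Real.pi / 2))) = 0 := by field_simp; ring
  rw [e2, Real.exp_zero]
  have e3 : 0 ≤ Real.pi / (2 * t) * Real.exp (-(t * (1 - 2 / Real.pi * 0))) := by positivity
  linarith

theorem ang {t : ℝ} (ht : 0 < t) :
    ∫⁻ φ in Ioo (-(Real.pi / 2)) (Real.pi / 2), ENNReal.ofReal (Real.exp (-(t * Real.cos φ))) ≤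
      ENNReal.ofReal (Real.pi / t) := by
  have hpi := Real.pi_pos
  have hr := ang_right ht
  have hl : ∫⁻ φ in Ico (-(Real.pi / 2)) 0, ENNReal.ofReal (Real.exp (-(t * Real.cos φ))) ≤
      ENNReal.ofReal (Real.pi / (2 * t)) := by
    have hmp : MeasurePreserving (fun φ : ℝ => -φ) volume volume := Measure.measurePreserving_neg _
    have e := hmp.setLIntegral_comp_preimage_emb (MeasurableEquiv.neg ℝ).measurableEmbedding
      (fun φ => ENNReal.ofReal (Real.exp (-(t * Real.cos φ)))) (Ioc (0 : ℝ) (Real.pi / 2))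
    have e' : (fun φ : ℝ => -φ) ⁻¹' Ioc (0 : ℝ) (Real.pi / 2) = Ico (-(Real.pi / 2)) 0 := by
      ext x
      simp only [mem_preimage, mem_Ioc, mem_Ico]
      constructor <;> rintro ⟨h1, h2⟩ <;> constructor <;> linarith
    rw [e'] at e
    simp only [Real.cos_neg] at e
    rw [e]
    exact hr
  calc _ ≤ ∫⁻ φ in Ico (-(Real.pi / 2)) 0 ∪ ({0} ∪ Ioc (0 : ℝ) (Real.pi / 2)),
        ENNReal.ofReal (Real.exp (-(t * Real.cos φ))) := by
        apply lintegral_mono_set
        intro x hx
        rcases lt_trichotomy x 0 with h | h | h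
        · exact Or.inl ⟨hx.1.le, h⟩
        · exact Or.inr (Or.inl h)
        · exact Or.inr (Or.inr ⟨h, hx.2.le⟩)
    _ ≤ (∫⁻ φ in Ico (-(Real.pi / 2)) 0, ENNReal.ofReal (Real.exp (-(t * Real.cos φ)))) +
        ∫⁻ φ in ({0} ∪ Ioc (0 : ℝ) (Real.pi / 2)),
        ENNReal.ofReal (Real.exp (-(t * Real.cos φ))) := lintegral_union_le _ _ _
    _ ≤ (∫⁻ φ in Ico (-(Real.pi / 2)) 0, ENNReal.ofReal (Real.exp (-(t * Real.cos φ)))) +
        ((∫⁻ φ in {(0 : ℝ)}, ENNReal.ofReal (Real.exp (-(t * Real.cos φ)))) +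
        ∫⁻ φ in Ioc (0 : ℝ) (Real.pi / 2),
        ENNReal.ofReal (Real.exp (-(t * Real.cos φ)))) := by
        gcongr
        exact lintegral_union_le _ _ _
    _ ≤ ENNReal.ofReal (Real.pi / (2 * t)) + (0 + ENNReal.ofReal (Real.pi / (2 * t))) := by
        have h0 : ∫⁻ φ in {(0 : ℝ)}, ENNReal.ofReal (Real.exp (-(t * Real.cos φ))) = 0 := by
          rw [Measure.restrict_singleton]
          simp
        rw [h0]
        gcongr
    _ = ENNReal.ofReal (Real.pi / t) := by
        rw [zero_add, ← ENNReal.ofReal_add (by positivity) (by positivity)]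
        congr 1
        field_simp
        ring

private theorem ang_pt_eq (x φ : ℝ) : pt x φ = Complex.polarCoord.symm (x, φ) := by
  rw [Complex.polarCoord_symm_apply, pt, Complex.exp_mul_I, Complex.ofReal_cos, Complex.ofReal_sin]

private theorem ang_pt_re (x φ : ℝ) : (pt x φ).re = x * Real.cos φ := by
  rw [ang_pt_eq, Complex.polarCoord_symm_apply]
  simp [Complex.cos_ofReal_re]

private theorem ang_measurable_pt : Measurable fun p : ℝ × ℝ => pt p.1 p.2 := by
  unfold pt
  fun_prop

theorem polar {h : ℂ → ENNReal} (hm : Measurable h) :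
    ∫⁻ u in {u : ℂ | 0 < u.re}, h u =
      ∫⁻ φ in Ioo (-(Real.pi / 2)) (Real.pi / 2), ∫⁻ x in Ioi (0 : ℝ),
        ENNReal.ofReal x * h (pt x φ) := by
  have hpi := Real.pi_pos
  have hH : MeasurableSet {u : ℂ | 0 < u.re} := measurableSet_lt measurable_const Complex.measurable_re
  let F : ℂ → ENNReal := indicator {u : ℂ | 0 < u.re} h
  have hF : Measurable F := hm.indicator hH
  have h1 : ∫⁻ u in {u : ℂ | 0 < u.re}, h u = ∫⁻ u, F u := (lintegral_indicator hH h).symm
  rw [h1, ← Complex.lintegral_comp_polarCoord_symm]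
  have h2 : polarCoord.target = Ioi (0 : ℝ) ×ˢ Ioo (-Real.pi) Real.pi := rfl
  rw [h2]
  have hmeas : Measurable fun p : ℝ × ℝ => ENNReal.ofReal p.1 • F (Complex.polarCoord.symm p) := by
    have e : (fun p : ℝ × ℝ => ENNReal.ofReal p.1 • F (Complex.polarCoord.symm p)) =
        fun p : ℝ × ℝ => ENNReal.ofReal p.1 * F (pt p.1 p.2) := by
      funext p
      rw [ang_pt_eq, smul_eq_mul]
    rw [e]
    exact (ENNReal.measurable_ofReal.comp measurable_fst).mul (hF.comp ang_measurable_pt)
  rw [Measure.volume_eq_prod, setLIntegral_prod_symm _ hmeas.aemeasurable]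
  -- the inner integrals
  have h3 : ∀ φ ∈ Ioo (-Real.pi) Real.pi, (∫⁻ x in Ioi (0 : ℝ),
      ENNReal.ofReal (x, φ).1 • F (Complex.polarCoord.symm (x, φ))) =
      indicator (Ioo (-(Real.pi / 2)) (Real.pi / 2))
        (fun φ => ∫⁻ x in Ioi (0 : ℝ), ENNReal.ofReal x * h (pt x φ)) φ := by
    intro φ hφ
    by_cases hin : φ ∈ Ioo (-(Real.pi / 2)) (Real.pi / 2)
    · rw [indicator_of_mem hin]
      apply setLIntegral_congr_fun measurableSet_Ioi
      intro x hx
      have hre : 0 < (pt x φ).re := by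
        rw [ang_pt_re]
        exact mul_pos hx (Real.cos_pos_of_mem_Ioo hin)
      change ENNReal.ofReal x • F (Complex.polarCoord.symm (x, φ)) = _
      rw [← ang_pt_eq, smul_eq_mul]
      congr 1
      exact indicator_of_mem (s := {u : ℂ | 0 < u.re}) hre h
    · rw [indicator_of_notMem hin]
      rw [setLIntegral_congr_fun (g := fun _ => 0) measurableSet_Ioi, lintegral_zero]
      intro x hx
      have hcos : Real.cos φ ≤ 0 := by
        rw [mem_Ioo, not_and_or, not_lt, not_lt] at hin
        rcases hin with hin | hin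
        · rw [← Real.cos_neg]
          exact Real.cos_nonpos_of_pi_div_two_le_of_le (by linarith) (by linarith [hφ.1])
        · exact Real.cos_nonpos_of_pi_div_two_le_of_le hin (by linarith [hφ.2])
      have hre : ¬ 0 < (pt x φ).re := by
        rw [ang_pt_re, not_lt]
        exact mul_nonpos_of_nonneg_of_nonpos (le_of_lt hx) hcos
      change ENNReal.ofReal x • F (Complex.polarCoord.symm (x, φ)) = 0
      rw [← ang_pt_eq, smul_eq_mul]
      have : F (pt x φ) = 0 := indicator_of_notMem (s := {u : ℂ | 0 < u.re}) hre h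
      rw [this, mul_zero]
  rw [setLIntegral_congr_fun measurableSet_Ioo h3, setLIntegral_indicator measurableSet_Ioo,
    inter_eq_left.2 (Ioo_subset_Ioo (by linarith) (by linarith))]

end KQB
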