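import Pool.Agent.KQB.Defs

set_option autoImplicit false

/-! # KQB RAY : the one-dimensional lemma (step 3 (a) of kqb_paper.txt) -/

open MeasureTheory Metric Set

namespace KQB

namespace RayAux

theorem wt_le_one (N x : ℝ) : wt N x ≤ 1 := min_le_left _ _

theorem wt_nonneg (N x : ℝ) : 0 ≤ wt N x := le_min zero_le_one (sq_nonneg _)

theorem wt_anti {N x y : ℝ} (hN : 0 < N) (hx : 0 < x) (h : x ≤ y) : wt N y ≤ wt N x := by
  refine min_le_min le_rfl ?_
  have hy : 0 < y := hx.trans_le h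
  have h1 : N / y ≤ N / x := div_le_div_of_nonneg_left hN.le hx h
  have h2 : 0 ≤ N / y := (div_pos hN hy).le
  exact pow_le_pow_left₀ h2 h1 2

theorem wt_two {N x : ℝ} : wt N x / 4 ≤ wt N (2 * x) := by
  refine le_min ?_ ?_
  · have := wt_le_one N x; linarith
  · have h1 : wt N x ≤ (N / x) ^ 2 := min_le_right _ _
    have h2 : (N / (2 * x)) ^ 2 = (N / x) ^ 2 / 4 := by
      rw [mul_comm, ← div_div, div_pow]; norm_num
    rw [h2]; linarith

theorem wt_cont {N x : ℝ} (hx : 0 < x) : ContinuousAt (wt N) x := by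
  have h1 : ContinuousAt (fun y : ℝ => (N / y) ^ 2) x :=
    (continuousAt_const.div continuousAt_id hx.ne').pow 2
  have h2 : Filter.Tendsto (fun _ : ℝ => (1 : ℝ)) (nhds x) (nhds 1) := tendsto_const_nhds
  exact h2.min h1

variable {h a : ℝ → ℝ}

theorem dneg (hh : ∀ x, 0 < x → 0 < h x) (ha : ∀ x, 0 < x → 1 / 2 ≤ a x ∧ a x ≤ 1) {x : ℝ}
    (hx : 0 < x) : 0 ≤ 2 / x * a x * h x := by
  have h1 := (ha x hx).1
  have h2 := hh x hx
  have h3 : 0 < 2 / x := by positivity
  have h4 : 0 ≤ a x := by linarith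
  positivity

theorem ioc (hh : ∀ x, 0 < x → 0 < h x)
    (hd : ∀ x, 0 < x → HasDerivAt h (-(2 / x) * a x * h x) x)
    (ha : ∀ x, 0 < x → 1 / 2 ≤ a x ∧ a x ≤ 1) {u v : ℝ} (hu : 0 < u) (huv : u ≤ v) :
    h v ≤ h u ∧ ∫⁻ x in Ioc u v, ENNReal.ofReal (2 / x * a x * h x) = ENNReal.ofReal (h u - h v) := by
  have hder : ∀ x ∈ Ioo u v, HasDerivAt (fun x => - h x) (2 / x * a x * h x) x := fun x hx => by
    have := (hd x (hu.trans hx.1)).neg
    refine this.congr_deriv ?_
    ring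
  have hcont : ContinuousOn (fun x => - h x) (Icc u v) := fun x hx =>
    ((hd x (hu.trans_le hx.1)).continuousAt.neg).continuousWithinAt
  have hint : IntegrableOn (fun x => 2 / x * a x * h x) (Ioc u v) :=
    intervalIntegral.integrableOn_deriv_of_nonneg hcont hder
      (fun x hx => dneg hh ha (hu.trans hx.1))
  have hint' : IntervalIntegrable (fun x => 2 / x * a x * h x) volume u v :=
    (intervalIntegrable_iff_integrableOn_Ioc_of_le huv).2 hint
  have hval : ∫ x in u..v, 2 / x * a x * h x = h u - h v := by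
    rw [intervalIntegral.integral_eq_sub_of_hasDerivAt_of_le huv hcont hder hint']
    ring
  have hnn : 0 ≤ ∫ x in u..v, 2 / x * a x * h x :=
    intervalIntegral.integral_nonneg huv (fun x hx => dneg hh ha (hu.trans_le hx.1))
  refine ⟨by rw [hval] at hnn; linarith, ?_⟩
  rw [← hval, intervalIntegral.integral_of_le huv, ofReal_integral_eq_lintegral_ofReal hint]
  exact (ae_restrict_iff' measurableSet_Ioc).2 (ae_of_all _ fun x hx => dneg hh ha (hu.trans hx.1))

theorem ioi (hh : ∀ x, 0 < x → 0 < h x)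
    (hd : ∀ x, 0 < x → HasDerivAt h (-(2 / x) * a x * h x) x)
    (ha : ∀ x, 0 < x → 1 / 2 ≤ a x ∧ a x ≤ 1) {u : ℝ} (hu : 0 < u) :
    ∫⁻ x in Ioi u, ENNReal.ofReal (2 / x * a x * h x) ≤ ENNReal.ofReal (h u) := by
  have hU : Ioi u = ⋃ n : ℕ, Ioc u (u + n) := by
    ext x
    simp only [mem_Ioi, mem_iUnion, mem_Ioc]
    constructor
    · intro hx
      obtain ⟨n, hn⟩ := exists_nat_ge (x - u)
      exact ⟨n, hx, by linarith⟩
    · rintro ⟨n, hx, _⟩; exact hx
  have hdir : Directed (· ⊆ ·) fun n : ℕ => Ioc u (u + n) :=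
    directed_of_isDirected_le (fun m n hmn => Ioc_subset_Ioc_right (by
      have : (m : ℝ) ≤ n := by exact_mod_cast hmn
      linarith))
  rw [hU, setLIntegral_iUnion_of_directed _ hdir]
  refine iSup_le fun n => ?_
  have hn : u ≤ u + n := by have := n.cast_nonneg (α := ℝ); linarith
  rw [(ioc hh hd ha hu hn).2]
  refine ENNReal.ofReal_le_ofReal ?_
  have := hh (u + n) (by linarith)
  linarith

/-- `x h x` is nonincreasing -/
theorem xh (hd : ∀ x, 0 < x → HasDerivAt h (-(2 / x) * a x * h x) x) (hh : ∀ x, 0 < x → 0 < h x)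
    (ha : ∀ x, 0 < x → 1 / 2 ≤ a x ∧ a x ≤ 1) {u v : ℝ} (hu : 0 < u) (huv : u ≤ v) :
    v * h v ≤ u * h u := by
  have hanti : AntitoneOn (fun x => x * h x) (Ioi 0) := by
    refine antitoneOn_of_deriv_nonpos (convex_Ioi 0) ?_ ?_ ?_
    · intro x hx
      exact (continuousAt_id.mul (hd x hx).continuousAt).continuousWithinAt
    · intro x hx
      rw [interior_Ioi] at hx
      exact ((hasDerivAt_id x).mul (hd x hx)).differentiableAt.differentiableWithinAt
    · intro x hx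
      rw [interior_Ioi] at hx
      have hx' : 0 < x := hx
      have h1 : HasDerivAt (fun x => x * h x) (1 * h x + x * (-(2 / x) * a x * h x)) x :=
        (hasDerivAt_id x).mul (hd x hx)
      rw [h1.deriv]
      have h2 : 1 * h x + x * (-(2 / x) * a x * h x) = (1 - 2 * a x) * h x := by
        field_simp
        ring
      rw [h2]
      have h3 := (ha x hx).1
      have h4 := hh x hx
      exact mul_nonpos_of_nonpos_of_nonneg (by linarith) h4.le
  exact hanti hu (hu.trans_le huv) huv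

end RayAux

open RayAux

/-- `rho = sInf D`; `x * h x` is nonincreasing; `wt N (2 rho) >= wt N rho / 4`. -/
theorem ray {p e δ N R x5 : ℝ} {h a : ℝ → ℝ} {D : Set ℝ} (he : 0 ≤ e) (hp : e ≤ p) (hδ : 0 ≤ δ)
    (hδ1 : δ ≤ 1 / 8) (hpδ : 4 * p * δ ≤ e / 128) (hN : 0 < N) (hR : 0 < R)
    (hh : ∀ x, 0 < x → 0 < h x) (hd : ∀ x, 0 < x → HasDerivAt h (-(2 / x) * a x * h x) x)
    (ha : ∀ x, 0 < x → 1 / 2 ≤ a x ∧ a x ≤ 1) (hD : D ⊆ Ioi 0)
    (hDR : ∀ x ∈ D, Real.sqrt (h x) * (1 - δ * wt N x) < R) (h5 : x5 ∈ D) :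
    ∫⁻ x in D, ENNReal.ofReal ((2 * p - e / 4 * wt N x) * a x * h x / x) ≤
      ENNReal.ofReal (R ^ 2 * (p - e / 128 * wt N x5)) := by
  have hx5 : 0 < x5 := hD h5
  have hp0 : 0 ≤ p := he.trans hp
  -- lower bound of `D`
  have hlow : ∀ x ∈ D, x5 * h x5 / (2 * R) ^ 2 ≤ x ∨ x5 ≤ x := by
    intro x hx
    by_cases hxx : x5 ≤ x
    · exact Or.inr hxx
    · left
      have hx0 : 0 < x := hD hx
      have h1 := xh hd hh ha hx0 (not_le.1 hxx).le
      have h2 := hDR x hx
      have h3 : Real.sqrt (h x) < 2 * R := by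
        have h4 : 1 / 2 ≤ 1 - δ * wt N x := by
          have := wt_le_one N x
          have := wt_nonneg N x
          nlinarith
        have h5 := Real.sqrt_nonneg (h x)
        nlinarith
      have h4 : h x ≤ (2 * R) ^ 2 := by
        have h6 := Real.sq_sqrt (hh x hx0).le
        have h5 := Real.sqrt_nonneg (h x)
        nlinarith
      rw [div_le_iff₀ (by positivity)]
      nlinarith
  set ρ := sInf D with hρ
  have hne : D.Nonempty := ⟨x5, h5⟩
  have hbdd : BddBelow D := ⟨0, fun x hx => (hD hx).le⟩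
  have hρ5 : ρ ≤ x5 := csInf_le hbdd h5
  have hρ0 : 0 < ρ := by
    have h1 : 0 < x5 * h x5 / (2 * R) ^ 2 := by
      have := hh x5 hx5; positivity
    have h2 : min (x5 * h x5 / (2 * R) ^ 2) x5 ≤ ρ := by
      refine le_csInf hne fun x hx => ?_
      rcases hlow x hx with h3 | h3
      · exact (min_le_left _ _).trans h3
      · exact (min_le_right _ _).trans h3
    exact (lt_min h1 hx5).trans_le h2
  have hDρ : D ⊆ Ici ρ := fun x hx => csInf_le hbdd hx
  -- the bound at `ρ`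
  have hcl : ρ ∈ closure D := csInf_mem_closure hne hbdd
  have hbρ : Real.sqrt (h ρ) * (1 - δ * wt N ρ) ≤ R := by
    have hc : ContinuousAt (fun x => Real.sqrt (h x) * (1 - δ * wt N x)) ρ :=
      (Real.continuous_sqrt.continuousAt.comp (hd ρ hρ0).continuousAt).mul
        (continuousAt_const.sub (continuousAt_const.mul (wt_cont hρ0)))
    have hne' : (nhdsWithin ρ D).NeBot := mem_closure_iff_nhdsWithin_neBot.1 hcl
    exact le_of_tendsto (hc.tendsto.mono_left nhdsWithin_le_nhds)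
      (eventually_nhdsWithin_of_forall fun x hx => (hDR x hx).le)
  set w := wt N ρ with hw
  have hw0 : 0 ≤ w := wt_nonneg _ _
  have hw1 : w ≤ 1 := wt_le_one _ _
  have hhρ := hh ρ hρ0
  have hδw : δ * w ≤ 1 / 8 := by nlinarith
  have hδw0 : 0 ≤ δ * w := mul_nonneg hδ hw0
  have hsq : h ρ * (1 - δ * w) ^ 2 ≤ R ^ 2 := by
    have h1 : 0 ≤ Real.sqrt (h ρ) * (1 - δ * w) :=
      mul_nonneg (Real.sqrt_nonneg _) (by linarith)
    have h2 := pow_le_pow_left₀ h1 hbρ 2
    rwa [mul_pow, Real.sq_sqrt hhρ.le] at h2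
  have hhR : h ρ ≤ R ^ 2 * (1 + 4 * (δ * w)) := by
    have h1 : 1 ≤ (1 + 4 * (δ * w)) * (1 - δ * w) ^ 2 := by nlinarith [mul_nonneg hδw0 hδw0]
    calc h ρ ≤ h ρ * ((1 + 4 * (δ * w)) * (1 - δ * w) ^ 2) := le_mul_of_one_le_right hhρ.le h1
      _ = (h ρ * (1 - δ * w) ^ 2) * (1 + 4 * (δ * w)) := by ring
      _ ≤ R ^ 2 * (1 + 4 * (δ * w)) := mul_le_mul_of_nonneg_right hsq (by linarith)
  -- the integral
  have h2ρ : ρ ≤ 2 * ρ := by linarith
  have h2ρ0 : 0 < 2 * ρ := by linarith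
  have hc1 : 0 ≤ p - e / 8 * wt N (2 * ρ) := by
    have := wt_le_one N (2 * ρ)
    have := wt_nonneg N (2 * ρ)
    nlinarith
  have hkey : ∫⁻ x in D, ENNReal.ofReal ((2 * p - e / 4 * wt N x) * a x * h x / x) ≤
      ENNReal.ofReal ((p - e / 8 * wt N (2 * ρ)) * (h ρ - h (2 * ρ)) + p * h (2 * ρ)) := by
    have hs1 : ∫⁻ x in D, ENNReal.ofReal ((2 * p - e / 4 * wt N x) * a x * h x / x) ≤
        ∫⁻ x in Ici ρ, ENNReal.ofReal ((2 * p - e / 4 * wt N x) * a x * h x / x) :=
      lintegral_mono_set hDρ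
    refine hs1.trans ?_
    rw [setLIntegral_congr Ioi_ae_eq_Ici.symm, ← Ioc_union_Ioi_eq_Ioi h2ρ]
    refine (lintegral_union_le _ _ _).trans ?_
    rw [ENNReal.ofReal_add (mul_nonneg hc1 (by
      have := (ioc hh hd ha hρ0 h2ρ).1; linarith)) (mul_nonneg hp0 (hh _ h2ρ0).le)]
    refine add_le_add ?_ ?_
    · rw [ENNReal.ofReal_mul hc1, ← (ioc hh hd ha hρ0 h2ρ).2,
        ← lintegral_const_mul' _ _ ENNReal.ofReal_ne_top]
      refine setLIntegral_mono_ae' measurableSet_Ioc (ae_of_all _ fun x hx => ?_)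
      rw [← ENNReal.ofReal_mul hc1]
      refine ENNReal.ofReal_le_ofReal ?_
      have hx0 : 0 < x := hρ0.trans hx.1
      have h1 : (2 * p - e / 4 * wt N x) * a x * h x / x =
          (p - e / 8 * wt N x) * (2 / x * a x * h x) := by
        field_simp
        ring
      rw [h1]
      refine mul_le_mul_of_nonneg_right ?_ (dneg hh ha hx0)
      have := wt_anti hN hx0 hx.2
      nlinarith
    · rw [ENNReal.ofReal_mul hp0]
      refine le_trans ?_ (mul_le_mul_right (ioi hh hd ha h2ρ0) _)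
      rw [← lintegral_const_mul' _ _ ENNReal.ofReal_ne_top]
      refine setLIntegral_mono_ae' measurableSet_Ioi (ae_of_all _ fun x hx => ?_)
      rw [← ENNReal.ofReal_mul hp0]
      refine ENNReal.ofReal_le_ofReal ?_
      have hx0 : 0 < x := h2ρ0.trans hx
      have h1 : (2 * p - e / 4 * wt N x) * a x * h x / x =
          (p - e / 8 * wt N x) * (2 / x * a x * h x) := by
        field_simp
        ring
      rw [h1]
      refine mul_le_mul_of_nonneg_right ?_ (dneg hh ha hx0)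
      have := wt_nonneg N x
      nlinarith
  refine hkey.trans (ENNReal.ofReal_le_ofReal ?_)
  have e1 : w / 4 ≤ wt N (2 * ρ) := wt_two
  have e2 : 2 * h (2 * ρ) ≤ h ρ := by
    have := xh hd hh ha hρ0 h2ρ
    have h3 : ρ * (2 * h (2 * ρ)) ≤ ρ * h ρ := by linarith
    exact le_of_mul_le_mul_left h3 hρ0
  have e3 : wt N x5 ≤ w := wt_anti hN hρ0 hρ5
  have e4 : (p - e / 8 * wt N (2 * ρ)) * (h ρ - h (2 * ρ)) + p * h (2 * ρ) ≤
      h ρ * (p - e / 64 * w) := by
    have f1 : w / 4 * (h ρ / 2) ≤ wt N (2 * ρ) * (h ρ - h (2 * ρ)) :=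
      mul_le_mul e1 (by linarith) (by linarith) (wt_nonneg _ _)
    nlinarith
  have e5 : 0 ≤ p - e / 64 * w := by nlinarith
  have hR2 : 0 ≤ R ^ 2 := sq_nonneg R
  calc (p - e / 8 * wt N (2 * ρ)) * (h ρ - h (2 * ρ)) + p * h (2 * ρ)
      ≤ h ρ * (p - e / 64 * w) := e4
    _ ≤ (R ^ 2 * (1 + 4 * (δ * w))) * (p - e / 64 * w) := mul_le_mul_of_nonneg_right hhR e5
    _ = R ^ 2 * ((1 + 4 * (δ * w)) * (p - e / 64 * w)) := by ring
    _ ≤ R ^ 2 * (p - e / 128 * wt N x5) := by
        refine mul_le_mul_of_nonneg_left ?_ hR2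
        have g1 : 0 ≤ (δ * w) * (e / 64 * w) := mul_nonneg hδw0 (by positivity)
        have g2 : (4 * p * δ) * w ≤ (e / 128) * w := mul_le_mul_of_nonneg_right hpδ hw0
        have g3 : e / 128 * wt N x5 ≤ e / 128 * w := mul_le_mul_of_nonneg_left e3 (by positivity)
        nlinarith

end KQB
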