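import Pool.Agent.KQB.Gb
import Pool.Agent.KQB.Ang
import Pool.Agent.KQB.Ray

set_option autoImplicit false

/-! # KQB AR : the area bound on the half plane (step 3 of kqb_paper.txt) -/

open MeasureTheory Metric Set

namespace KQB

theorem wq_nonneg (N x : ℝ) : 0 ≤ wt N x := le_min zero_le_one (sq_nonneg _)

theorem wq_le_one (N x : ℝ) : wt N x ≤ 1 := min_le_left _ _

theorem wq_anti {N x y : ℝ} (hN : 0 ≤ N) (hx : 0 < x) (hxy : x ≤ y) : wt N y ≤ wt N x := by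
  refine min_le_min le_rfl ?_
  have hy : 0 < y := hx.trans_le hxy
  have : N / y ≤ N / x := by gcongr
  exact pow_le_pow_left₀ (by positivity) this 2

theorem wq_five {N y : ℝ} (hy : 0 < y) : wt N y / 25 ≤ wt N (5 * y) := by
  refine le_min ?_ ?_
  · have := wq_le_one N y
    linarith
  · have h1 : wt N y ≤ (N / y) ^ 2 := min_le_right _ _
    have h2 : (N / (5 * y)) ^ 2 = (N / y) ^ 2 / 25 := by
      field_simp
      norm_num
    rw [h2]
    linarith

/-- `ε, e, k0, k1` are small enough -/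
structure Par (ε e : ℝ) (k0 k1 : ℕ) : Prop where
  hε : 0 < ε
  he : 0 < e
  he1 : e ≤ 1 / 100
  hk : 1 ≤ k0
  h1 : 7 * ε * Real.sqrt ((1 / 2 : ℝ) ^ k0) ≤ e / 200
  h2 : 70 * ε * Real.sqrt ((1 / 2 : ℝ) ^ k0) + 400 * ε ^ 2 ≤ e / 12800

noncomputable def GG (ε e : ℝ) (k0 k1 : ℕ) (u : ℂ) : ℂ := F0 e (2 ^ k1) u + gg ε e k0 k1 u

noncomputable def dl (ε : ℝ) (k0 : ℕ) : ℝ := 7 * ε * Real.sqrt ((1 / 2 : ℝ) ^ k0)

theorem dl_nonneg {ε e : ℝ} {k0 k1 : ℕ} (h : Par ε e k0 k1) : 0 ≤ dl ε k0 := by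
  have := h.hε
  unfold dl
  positivity

theorem dl_le {ε e : ℝ} {k0 k1 : ℕ} (h : Par ε e k0 k1) : dl ε k0 ≤ 1 / 20000 := by
  have := h.h1
  have := h.he1
  unfold dl
  linarith

theorem twoN (k1 : ℕ) : (1 : ℝ) ≤ 2 ^ k1 := one_le_pow₀ (by norm_num)

/-- comparison of `G` and `F0` -/
theorem GG_comp {ε e : ℝ} {k0 k1 : ℕ} (h : Par ε e k0 k1) {u : ℂ} (hu : 0 < u.re) :
    ‖F0 e (2 ^ k1) u‖ * (1 - dl ε k0 * wt (2 ^ k1) ‖u‖) ≤ ‖GG ε e k0 k1 u‖ ∧
      ‖GG ε e k0 k1 u‖ ≤ (1 + dl ε k0) * ‖F0 e (2 ^ k1) u‖ := by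
  have h1 := gg_bd h.hε.le h.he.le (by linarith [h.he1]) (k1 := k1) h.hk hu
  have h2 := wq_le_one (2 ^ k1) ‖u‖
  have h3 := wq_nonneg (2 ^ k1) ‖u‖
  have h4 := dl_nonneg h
  have h5 : 0 ≤ ‖F0 e (2 ^ k1) u‖ := norm_nonneg _
  have h6 : dl ε k0 * wt (2 ^ k1) ‖u‖ * ‖F0 e (2 ^ k1) u‖ ≤ dl ε k0 * 1 * ‖F0 e (2 ^ k1) u‖ := by
    gcongr
  have e1 : ‖gg ε e k0 k1 u‖ ≤ dl ε k0 * wt (2 ^ k1) ‖u‖ * ‖F0 e (2 ^ k1) u‖ := h1
  unfold GG
  constructor
  · have := norm_sub_le (F0 e (2 ^ k1) u + gg ε e k0 k1 u) (gg ε e k0 k1 u)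
    rw [add_sub_cancel_right] at this
    nlinarith
  · have := norm_add_le (F0 e (2 ^ k1) u) (gg ε e k0 k1 u)
    nlinarith

theorem far {ε e : ℝ} {k0 k1 : ℕ} (h : Par ε e k0 k1) {R y : ℝ} (hR : 0 < R) (hy : 0 < y)
    (hM : MM e (2 ^ k1) y = 2 * R ^ 2) {u : ℂ} (hu : 0 < u.re) (hG : ‖GG ε e k0 k1 u‖ < R) :
    y < ‖u‖ := by
  have hN : (0 : ℝ) < 2 ^ k1 := by positivity
  have h1 := (GG_comp h hu).1
  have h2 := (F0_bd h.he.le (by linarith [h.he1]) hN hu).1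
  have h3 := dl_le h
  have h4 := dl_nonneg h
  have h5 := wq_le_one (2 ^ k1) ‖u‖
  have h6 := wq_nonneg (2 ^ k1) ‖u‖
  by_contra hc
  push Not at hc
  have hu0 : 0 < ‖u‖ := norm_pos_iff.2 (by rintro rfl; simp at hu)
  have h7 := MM_le h.he.le hN hu0 hc
  have h8 := MM_pos (e := e) hN hu0
  have h9 : ‖u‖ / y * MM e (2 ^ k1) ‖u‖ ≤ 1 * MM e (2 ^ k1) ‖u‖ := by
    gcongr
    rw [div_le_one hy]
    exact hc
  have h10 : 2 * R ^ 2 ≤ ‖F0 e (2 ^ k1) u‖ ^ 2 := by linarith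
  have h11 : dl ε k0 * wt (2 ^ k1) ‖u‖ ≤ 1 / 20000 * 1 := by gcongr
  have h12 : 0 ≤ ‖F0 e (2 ^ k1) u‖ := norm_nonneg _
  have h13 : ‖F0 e (2 ^ k1) u‖ * (9 / 10) ≤ ‖F0 e (2 ^ k1) u‖ *
      (1 - dl ε k0 * wt (2 ^ k1) ‖u‖) := by
    gcongr
    linarith
  have h14 : ‖F0 e (2 ^ k1) u‖ * (9 / 10) < R := by linarith
  nlinarith

theorem five {ε e : ℝ} {k0 k1 : ℕ} (h : Par ε e k0 k1) {R y : ℝ} (hR : 0 < R) (hy : 0 < y)
    (hM : MM e (2 ^ k1) y = 2 * R ^ 2) {φ : ℝ} (hφ : |φ| < Real.pi / 2) :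
    ‖GG ε e k0 k1 (pt (5 * y) φ)‖ < R := by
  have hN : (0 : ℝ) < 2 ^ k1 := by positivity
  have hc : 0 < Real.cos φ := Real.cos_pos_of_mem_Ioo ⟨by linarith [(abs_lt.1 hφ).1], (abs_lt.1 hφ).2⟩
  have hu : 0 < (pt (5 * y) φ).re := by
    rw [pt_re]
    positivity
  have h1 := (GG_comp h hu).2
  have h2 := (F0_bd h.he.le (by linarith [h.he1]) hN hu).2
  rw [pt_norm (by positivity)] at h2
  have h3 := dl_le h
  have h4 := dl_nonneg h
  have h5 := MM_le h.he.le hN hy (by linarith : y ≤ 5 * y)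
  have h6 : y / (5 * y) = 1 / 5 := by field_simp
  rw [h6, hM] at h5
  have h7 : ‖F0 e (2 ^ k1) (pt (5 * y) φ)‖ ^ 2 ≤ 4 / 5 * R ^ 2 := by linarith
  have h8 : 0 ≤ ‖F0 e (2 ^ k1) (pt (5 * y) φ)‖ := norm_nonneg _
  have h9 : ‖GG ε e k0 k1 (pt (5 * y) φ)‖ ≤ 11 / 10 * ‖F0 e (2 ^ k1) (pt (5 * y) φ)‖ := by
    refine h1.trans ?_
    gcongr
    linarith
  have h10 : 0 ≤ ‖GG ε e k0 k1 (pt (5 * y) φ)‖ := norm_nonneg _
  by_contra hcon
  push Not at hcon
  nlinarith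

/-- the extra density -/
noncomputable def KK (ε e : ℝ) (k0 k1 : ℕ) (x φ : ℝ) : ℝ :=
  4 * MM e (2 ^ k1) x * bb ε k0 k1 x * Real.exp (-(x / 2 * Real.cos φ)) +
    2 * MM e (2 ^ k1) x * bb ε k0 k1 x ^ 2 * x * Real.exp (-(x * Real.cos φ))

theorem point {ε e : ℝ} {k0 k1 : ℕ} (h : Par ε e k0 k1) {x φ : ℝ} (hx : 0 < x)
    (hφ : |φ| < Real.pi / 2) :
    x * ‖deriv (GG ε e k0 k1) (pt x φ)‖ ^ 2 ≤
      (2 * (1 / 4 + e) - e / 4 * wt (2 ^ k1) x) * aa e (2 ^ k1) (pt x φ) *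
        ‖F0 e (2 ^ k1) (pt x φ)‖ ^ 2 / x + KK ε e k0 k1 x φ := by
  have hN : (0 : ℝ) < 2 ^ k1 := by positivity
  have hc : 0 < Real.cos φ := Real.cos_pos_of_mem_Ioo ⟨by linarith [(abs_lt.1 hφ).1], (abs_lt.1 hφ).2⟩
  have hu : 0 < (pt x φ).re := by
    rw [pt_re]
    positivity
  have he8 : e ≤ 1 / 8 := by linarith [h.he1]
  have hop : IsOpen {u : ℂ | 0 < u.re} := isOpen_lt continuous_const Complex.continuous_re
  have hd1 : DifferentiableAt ℂ (F0 e (2 ^ k1)) (pt x φ) :=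
    (F0_diff hN.le).differentiableAt (hop.mem_nhds hu)
  have hd2 : DifferentiableAt ℂ (gg ε e k0 k1) (pt x φ) :=
    (gg_diff ε e k0 k1).differentiableAt (hop.mem_nhds hu)
  have hder : deriv (GG ε e k0 k1) (pt x φ) = deriv (F0 e (2 ^ k1)) (pt x φ) +
      deriv (gg ε e k0 k1) (pt x φ) := by
    have : GG ε e k0 k1 = F0 e (2 ^ k1) + gg ε e k0 k1 := rfl
    rw [this, deriv_add hd1 hd2]
  have h1 := F0_der1 h.he.le he8 hN hu
  have h2 := F0_der2 h.he.le he8 hN hu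
  have h3 := gg_der h.hε.le h.he.le he8 (k1 := k1) h.hk hu
  have h4 := (F0_bd h.he.le he8 hN hu).2
  have hbb := (bb_bd h.hε.le k0 k1 hx).1
  rw [pt_norm hx.le] at h1 h2 h3 h4
  rw [pt_re] at h3
  rw [hder]
  set A := ‖deriv (F0 e (2 ^ k1)) (pt x φ)‖ with hA
  set B := ‖deriv (gg ε e k0 k1) (pt x φ)‖ with hB
  set F := ‖F0 e (2 ^ k1) (pt x φ)‖ with hF
  set b := bb ε k0 k1 x with hb
  have hA0 : 0 ≤ A := norm_nonneg _
  have hB0 : 0 ≤ B := norm_nonneg _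
  have hF0 : 0 ≤ F := norm_nonneg _
  have h5 : ‖deriv (F0 e (2 ^ k1)) (pt x φ) + deriv (gg ε e k0 k1) (pt x φ)‖ ^ 2 ≤
      (A + B) ^ 2 := by
    gcongr
    exact norm_add_le _ _
  have h6 : x * A ^ 2 ≤ (2 * (1 / 4 + e) - e / 4 * wt (2 ^ k1) x) * aa e (2 ^ k1) (pt x φ) *
        F ^ 2 / x := by
    have : x * A ^ 2 ≤ x * ((1 / 2 + 2 * e - e / 4 * wt (2 ^ k1) x) * aa e (2 ^ k1) (pt x φ) *
        F ^ 2 / x ^ 2) := by gcongr
    refine this.trans (le_of_eq ?_)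
    field_simp
    ring
  have hE : Real.exp (-(x * Real.cos φ / 2)) = Real.exp (-(x / 2 * Real.cos φ)) := by
    congr 1
    ring
  have hE2 : Real.exp (-(x * Real.cos φ / 2)) ^ 2 = Real.exp (-(x * Real.cos φ)) := by
    rw [← Real.exp_nat_mul]
    congr 1
    push_cast
    ring
  have h7 : x * (2 * A * B) ≤ 4 * MM e (2 ^ k1) x * b * Real.exp (-(x / 2 * Real.cos φ)) := by
    have h71 : 2 * A * B ≤ 2 * (F / x) * (b * Real.exp (-(x * Real.cos φ / 2)) * F) := by gcongr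
    have h72 : x * (2 * A * B) ≤
        x * (2 * (F / x) * (b * Real.exp (-(x * Real.cos φ / 2)) * F)) := by gcongr
    have h73 : x * (2 * (F / x) * (b * Real.exp (-(x * Real.cos φ / 2)) * F)) =
        2 * b * Real.exp (-(x * Real.cos φ / 2)) * F ^ 2 := by
      field_simp
    have h74 : 2 * b * Real.exp (-(x * Real.cos φ / 2)) * F ^ 2 ≤
        2 * b * Real.exp (-(x * Real.cos φ / 2)) * (2 * MM e (2 ^ k1) x) := by gcongr
    rw [← hE]
    linarith
  have h8 : x * B ^ 2 ≤ 2 * MM e (2 ^ k1) x * b ^ 2 * x * Real.exp (-(x * Real.cos φ)) := by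
    have h81 : B ^ 2 ≤ (b * Real.exp (-(x * Real.cos φ / 2)) * F) ^ 2 := by gcongr
    have h82 : (b * Real.exp (-(x * Real.cos φ / 2)) * F) ^ 2 =
        b ^ 2 * Real.exp (-(x * Real.cos φ)) * F ^ 2 := by
      rw [← hE2]
      ring
    have h83 : b ^ 2 * Real.exp (-(x * Real.cos φ)) * F ^ 2 ≤
        b ^ 2 * Real.exp (-(x * Real.cos φ)) * (2 * MM e (2 ^ k1) x) := by gcongr
    have h84 : x * B ^ 2 ≤ x * (b ^ 2 * Real.exp (-(x * Real.cos φ)) * (2 * MM e (2 ^ k1) x)) := by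
      gcongr
      linarith
    linarith
  unfold KK
  rw [← hb]
  have h9 : x * ‖deriv (F0 e (2 ^ k1)) (pt x φ) + deriv (gg ε e k0 k1) (pt x φ)‖ ^ 2 ≤
      x * (A + B) ^ 2 := by gcongr
  have h10 : x * (A + B) ^ 2 = x * A ^ 2 + x * (2 * A * B) + x * B ^ 2 := by ring
  linarith

/-- integral of `y/x^2` -/
theorem tail {y c : ℝ} (hy : 0 < y) (hc : 0 ≤ c) :
    ∫⁻ x in Ioi y, ENNReal.ofReal (c * (y / x ^ 2)) ≤ ENNReal.ofReal c := by
  have h1 : IntegrableOn (fun x : ℝ => x ^ (-2 : ℝ)) (Ioi y) :=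
    integrableOn_Ioi_rpow_of_lt (by norm_num) hy
  have h2 := integral_Ioi_rpow_of_lt (a := -2) (by norm_num) hy
  have h3 : ∫⁻ x in Ioi y, ENNReal.ofReal (c * (y / x ^ 2)) =
      ∫⁻ x in Ioi y, ENNReal.ofReal (c * y * x ^ (-2 : ℝ)) := by
    refine setLIntegral_congr_fun measurableSet_Ioi fun x hx => ?_
    have hx0 : 0 < x := hy.trans hx
    have : x ^ (-2 : ℝ) = 1 / x ^ 2 := by
      rw [Real.rpow_neg hx0.le]
      norm_num
    simp only [this]
    congr 1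
    ring
  rw [h3, ← ofReal_integral_eq_lintegral_ofReal (h1.const_mul _)]
  · apply ENNReal.ofReal_le_ofReal
    rw [integral_const_mul, h2]
    have : y ^ (-2 + 1 : ℝ) = 1 / y := by
      rw [show (-2 + 1 : ℝ) = -1 by norm_num, Real.rpow_neg_one]
      simp
    rw [this]
    have : c * y * (-(1 / y) / (-2 + 1)) = c := by
      field_simp
      norm_num
    rw [this]
  · filter_upwards [ae_restrict_mem measurableSet_Ioi] with x hx
    have hx0 : 0 < x := hy.trans hx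
    positivity

/-- the extra integral -/
theorem extra {ε e : ℝ} {k0 k1 : ℕ} (h : Par ε e k0 k1) {R y : ℝ} (hy : 0 < y)
    (hM : MM e (2 ^ k1) y = 2 * R ^ 2) :
    ∫⁻ φ in Ioo (-(Real.pi / 2)) (Real.pi / 2), ∫⁻ x in Ioi y,
      ENNReal.ofReal (KK ε e k0 k1 x φ) ≤
    ENNReal.ofReal (Real.pi * (e / 3200 * wt (2 ^ k1) y * R ^ 2)) := by
  have hN : (0 : ℝ) < 2 ^ k1 := by positivity
  have hmM : Measurable (MM e (2 ^ k1)) := by
    unfold MM
    fun_prop
  have hmb := bb_meas ε k0 k1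
  have hmK : Measurable (Function.uncurry fun φ x => ENNReal.ofReal (KK ε e k0 k1 x φ)) := by
    unfold KK Function.uncurry
    have h1 : Measurable fun q : ℝ × ℝ => MM e (2 ^ k1) q.2 := hmM.comp measurable_snd
    have h2 : Measurable fun q : ℝ × ℝ => bb ε k0 k1 q.2 := hmb.comp measurable_snd
    fun_prop
  rw [lintegral_lintegral_swap hmK.aemeasurable]
  have hη : ∀ x : ℝ, 0 < x → 0 ≤ bb ε k0 k1 x ∧ 4 * bb ε k0 k1 x + bb ε k0 k1 x ^ 2 * x ≤
      e / 12800 * wt (2 ^ k1) x := by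
    intro x hx
    obtain ⟨h1, h2⟩ := bb_bd h.hε.le k0 k1 hx
    refine ⟨h1, h2.trans ?_⟩
    have := h.h2
    have := wq_nonneg (2 ^ k1) x
    gcongr
  have key : ∀ x ∈ Ioi y, ∫⁻ φ in Ioo (-(Real.pi / 2)) (Real.pi / 2),
      ENNReal.ofReal (KK ε e k0 k1 x φ) ≤
      ENNReal.ofReal (Real.pi * (e / 3200 * wt (2 ^ k1) y * R ^ 2) * (y / x ^ 2)) := by
    intro x hx
    have hx0 : 0 < x := hy.trans hx
    obtain ⟨hb0, hb1⟩ := hη x hx0
    have hMp := MM_pos (e := e) hN hx0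
    have hMx : MM e (2 ^ k1) x ≤ y / x * (2 * R ^ 2) := by
      rw [← hM]
      exact MM_le h.he.le hN hy (le_of_lt hx)
    have hw := wq_anti hN.le hy (le_of_lt hx)
    have hw0 := wq_nonneg (2 ^ k1) y
    have s1 : ∀ φ : ℝ, ENNReal.ofReal (KK ε e k0 k1 x φ) =
        ENNReal.ofReal (4 * MM e (2 ^ k1) x * bb ε k0 k1 x) *
          ENNReal.ofReal (Real.exp (-(x / 2 * Real.cos φ))) +
        ENNReal.ofReal (2 * MM e (2 ^ k1) x * bb ε k0 k1 x ^ 2 * x) *
          ENNReal.ofReal (Real.exp (-(x * Real.cos φ))) := by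
      intro φ
      unfold KK
      rw [ENNReal.ofReal_add (by positivity) (by positivity),
        ENNReal.ofReal_mul (p := 4 * MM e (2 ^ k1) x * bb ε k0 k1 x) (by positivity),
        ENNReal.ofReal_mul (p := 2 * MM e (2 ^ k1) x * bb ε k0 k1 x ^ 2 * x) (by positivity)]
    simp only [s1]
    rw [lintegral_add_left (by fun_prop), lintegral_const_mul _ (by fun_prop),
      lintegral_const_mul _ (by fun_prop)]
    have a1 := ang (t := x / 2) (by positivity)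
    have a2 := ang (t := x) hx0
    calc _ ≤ ENNReal.ofReal (4 * MM e (2 ^ k1) x * bb ε k0 k1 x) *
          ENNReal.ofReal (Real.pi / (x / 2)) +
        ENNReal.ofReal (2 * MM e (2 ^ k1) x * bb ε k0 k1 x ^ 2 * x) *
          ENNReal.ofReal (Real.pi / x) := by gcongr
      _ = ENNReal.ofReal (2 * Real.pi * MM e (2 ^ k1) x / x *
          (4 * bb ε k0 k1 x + bb ε k0 k1 x ^ 2 * x)) := by
        rw [← ENNReal.ofReal_mul (by positivity), ← ENNReal.ofReal_mul (by positivity),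
          ← ENNReal.ofReal_add (by positivity) (by positivity)]
        congr 1
        field_simp
      _ ≤ _ := by
        apply ENNReal.ofReal_le_ofReal
        have c1 : 2 * Real.pi * MM e (2 ^ k1) x / x *
            (4 * bb ε k0 k1 x + bb ε k0 k1 x ^ 2 * x) ≤
            2 * Real.pi * (y / x * (2 * R ^ 2)) / x * (e / 12800 * wt (2 ^ k1) y) := by
          have hpi := Real.pi_pos
          have he := h.he
          gcongr
          exact hb1.trans (by gcongr)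
        refine c1.trans (le_of_eq ?_)
        field_simp
        ring
  have hpi := Real.pi_pos
  have he := h.he
  have hw0 := wq_nonneg (2 ^ k1) y
  calc _ ≤ ∫⁻ x in Ioi y,
      ENNReal.ofReal (Real.pi * (e / 3200 * wt (2 ^ k1) y * R ^ 2) * (y / x ^ 2)) :=
        setLIntegral_mono' measurableSet_Ioi key
    _ ≤ _ := tail hy (by positivity)

theorem GG_meas (ε e : ℝ) (k0 k1 : ℕ) : Measurable (GG ε e k0 k1) := by
  unfold GG F0 gg gk
  have : Measurable Complex.log := Complex.measurable_log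
  fun_prop

theorem area_GG {ε e : ℝ} {k0 k1 : ℕ} (h : Par ε e k0 k1) {R : ℝ} (hR : 0 < R) :
    ∫⁻ u in {u : ℂ | 0 < u.re ∧ ‖GG ε e k0 k1 u‖ < R},
      ENNReal.ofReal (‖deriv (GG ε e k0 k1) u‖ ^ 2) ≤
        ENNReal.ofReal (Real.pi * (1 / 4 + e) * R ^ 2) := by
  have hN : (0 : ℝ) < 2 ^ k1 := by positivity
  have he8 : e ≤ 1 / 8 := by linarith [h.he1]
  have he := h.he
  obtain ⟨y, hy, hM⟩ := MM_ivt (e := e) (N := 2 ^ k1) he.le he8 hN
    (c := 2 * R ^ 2) (by positivity)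
  have hGm := GG_meas ε e k0 k1
  set S : Set ℂ := {u | ‖GG ε e k0 k1 u‖ < R} with hS
  have hSm : MeasurableSet S := measurableSet_lt hGm.norm measurable_const
  set f : ℂ → ENNReal := fun u => ENNReal.ofReal (‖deriv (GG ε e k0 k1) u‖ ^ 2) with hf
  have hfm : Measurable f := by
    have := measurable_deriv (GG ε e k0 k1)
    fun_prop
  have hset : {u : ℂ | 0 < u.re ∧ ‖GG ε e k0 k1 u‖ < R} = S ∩ {u : ℂ | 0 < u.re} := by
    ext u
    simp only [hS, mem_ofPred_eq, mem_inter_iff]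
    tauto
  rw [hset, ← setLIntegral_indicator hSm, polar (hfm.indicator hSm)]
  -- the ray part
  have hw5 := wq_five (N := 2 ^ k1) hy
  have hw0 := wq_nonneg (2 ^ k1) y
  have hw05 := wq_nonneg (2 ^ k1) (5 * y)
  have hw15 := wq_le_one (2 ^ k1) (5 * y)
  have hdl := dl_nonneg h
  have hdl1 := h.h1
  have hcosp : ∀ φ ∈ Ioo (-(Real.pi / 2)) (Real.pi / 2), 0 < Real.cos φ :=
    fun φ hφ => Real.cos_pos_of_mem_Ioo hφ
  have inner : ∀ φ ∈ Ioo (-(Real.pi / 2)) (Real.pi / 2),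
      ∫⁻ x in Ioi (0 : ℝ), ENNReal.ofReal x * S.indicator f (pt x φ) ≤
        ENNReal.ofReal (R ^ 2 * (1 / 4 + e - e / 128 * wt (2 ^ k1) (5 * y))) +
          ∫⁻ x in Ioi y, ENNReal.ofReal (KK ε e k0 k1 x φ) := by
    intro φ hφ
    have hφ' : |φ| < Real.pi / 2 := abs_lt.2 ⟨by linarith [hφ.1], hφ.2⟩
    have hc := hcosp φ hφ
    have hre : ∀ x : ℝ, 0 < x → 0 < (pt x φ).re := by
      intro x hx
      rw [pt_re]
      positivity
    set D : Set ℝ := {x | 0 < x ∧ ‖GG ε e k0 k1 (pt x φ)‖ < R} with hD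
    have hptm : Measurable fun x : ℝ => pt x φ := by
      unfold pt
      fun_prop
    have hDm : MeasurableSet D :=
      (measurableSet_lt measurable_const measurable_id).inter
        (measurableSet_lt (hGm.comp hptm).norm measurable_const)
    have hray := ray (p := 1 / 4 + e) (e := e) (δ := dl ε k0) (N := 2 ^ k1) (R := R)
      (x5 := 5 * y) (h := fun x => ‖F0 e (2 ^ k1) (pt x φ)‖ ^ 2)
      (a := fun x => aa e (2 ^ k1) (pt x φ)) (D := D) he.le (by linarith) hdl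
      (by linarith [dl_le h]) (by
        have : dl ε k0 ≤ e / 200 := hdl1
        have h3 : (1 / 4 + e) ≤ 26 / 100 := by linarith [h.he1]
        have h4 : 4 * (1 / 4 + e) * dl ε k0 ≤ 4 * (26 / 100) * (e / 200) := by gcongr
        linarith) hN hR
      (fun x hx => by
        have := (F0_bd he.le he8 hN (hre x hx)).1
        rw [pt_norm hx.le] at this
        exact lt_of_lt_of_le (MM_pos (e := e) hN hx) this)
      (fun x hx => F0_ray hN hφ' hx)
      (fun x hx => aa_bd he.le he8 hN (hre x hx))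
      (fun x hx => hx.1)
      (fun x hx => by
        have h1 := (GG_comp h (hre x hx.1)).1
        rw [pt_norm hx.1.le] at h1
        rw [Real.sqrt_sq (norm_nonneg _)]
        exact lt_of_le_of_lt h1 hx.2)
      ⟨by positivity, five h hR hy hM hφ'⟩
    have step : ∀ x ∈ Ioi (0 : ℝ), ENNReal.ofReal x * S.indicator f (pt x φ) ≤
        D.indicator (fun x => ENNReal.ofReal ((2 * (1 / 4 + e) - e / 4 * wt (2 ^ k1) x) *
          aa e (2 ^ k1) (pt x φ) * ‖F0 e (2 ^ k1) (pt x φ)‖ ^ 2 / x)) x +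
        (Ioi y).indicator (fun x => ENNReal.ofReal (KK ε e k0 k1 x φ)) x := by
      intro x hx
      have hx0 : 0 < x := hx
      by_cases hxS : pt x φ ∈ S
      · have hxD : x ∈ D := ⟨hx0, hxS⟩
        have hxy : y < x := by
          have := far h hR hy hM (hre x hx0) hxS
          rwa [pt_norm hx0.le] at this
        rw [indicator_of_mem hxS, indicator_of_mem hxD, indicator_of_mem (show x ∈ Ioi y from hxy)]
        simp only [hf]
        rw [← ENNReal.ofReal_mul hx0.le]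
        have h1 := point h hx0 hφ'
        have hKK : 0 ≤ KK ε e k0 k1 x φ := by
          have := MM_pos (e := e) hN hx0
          have := (bb_bd h.hε.le k0 k1 hx0).1
          unfold KK
          positivity
        have hpos : 0 ≤ (2 * (1 / 4 + e) - e / 4 * wt (2 ^ k1) x) * aa e (2 ^ k1) (pt x φ) *
            ‖F0 e (2 ^ k1) (pt x φ)‖ ^ 2 / x := by
          have h5 := (aa_bd he.le he8 hN (hre x hx0)).1
          have h6 := wq_le_one (2 ^ k1) x
          have h7 : e / 4 * wt (2 ^ k1) x ≤ e / 4 * 1 := by gcongr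
          have h8 : 0 ≤ 2 * (1 / 4 + e) - e / 4 * wt (2 ^ k1) x := by linarith
          have h9 : 0 ≤ aa e (2 ^ k1) (pt x φ) := by linarith
          positivity
        rw [← ENNReal.ofReal_add hpos hKK]
        exact ENNReal.ofReal_le_ofReal h1
      · rw [indicator_of_notMem hxS]
        simp
    calc _ ≤ ∫⁻ x in Ioi (0 : ℝ), (D.indicator (fun x => ENNReal.ofReal
          ((2 * (1 / 4 + e) - e / 4 * wt (2 ^ k1) x) *
          aa e (2 ^ k1) (pt x φ) * ‖F0 e (2 ^ k1) (pt x φ)‖ ^ 2 / x)) x +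
          (Ioi y).indicator (fun x => ENNReal.ofReal (KK ε e k0 k1 x φ)) x) :=
          setLIntegral_mono' measurableSet_Ioi step
      _ ≤ ∫⁻ x, (D.indicator (fun x => ENNReal.ofReal
          ((2 * (1 / 4 + e) - e / 4 * wt (2 ^ k1) x) *
          aa e (2 ^ k1) (pt x φ) * ‖F0 e (2 ^ k1) (pt x φ)‖ ^ 2 / x)) x +
          (Ioi y).indicator (fun x => ENNReal.ofReal (KK ε e k0 k1 x φ)) x) :=
          setLIntegral_le_lintegral _ _
      _ = (∫⁻ x in D, ENNReal.ofReal ((2 * (1 / 4 + e) - e / 4 * wt (2 ^ k1) x) *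
          aa e (2 ^ k1) (pt x φ) * ‖F0 e (2 ^ k1) (pt x φ)‖ ^ 2 / x)) +
          ∫⁻ x in Ioi y, ENNReal.ofReal (KK ε e k0 k1 x φ) := by
          rw [lintegral_add_right _ (Measurable.indicator (by
            unfold KK MM
            have := bb_meas ε k0 k1
            fun_prop) measurableSet_Ioi), lintegral_indicator hDm,
            lintegral_indicator measurableSet_Ioi]
      _ ≤ _ := by gcongr
  have hpi := Real.pi_pos
  calc _ ≤ ∫⁻ φ in Ioo (-(Real.pi / 2)) (Real.pi / 2),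
        (ENNReal.ofReal (R ^ 2 * (1 / 4 + e - e / 128 * wt (2 ^ k1) (5 * y))) +
          ∫⁻ x in Ioi y, ENNReal.ofReal (KK ε e k0 k1 x φ)) :=
        setLIntegral_mono' measurableSet_Ioo inner
    _ = ENNReal.ofReal (R ^ 2 * (1 / 4 + e - e / 128 * wt (2 ^ k1) (5 * y))) *
          ENNReal.ofReal Real.pi +
        ∫⁻ φ in Ioo (-(Real.pi / 2)) (Real.pi / 2), ∫⁻ x in Ioi y,
          ENNReal.ofReal (KK ε e k0 k1 x φ) := by
        rw [lintegral_add_left measurable_const, setLIntegral_const, Real.volume_Ioo]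
        congr 3
        ring
    _ ≤ ENNReal.ofReal (R ^ 2 * (1 / 4 + e - e / 128 * wt (2 ^ k1) (5 * y))) *
          ENNReal.ofReal Real.pi +
        ENNReal.ofReal (Real.pi * (e / 3200 * wt (2 ^ k1) y * R ^ 2)) := by
        gcongr
        exact extra h hy hM
    _ ≤ _ := by
        have h3 : e / 128 * wt (2 ^ k1) (5 * y) ≤ e / 128 * 1 := by gcongr
        have h4 : 0 ≤ 1 / 4 + e - e / 128 * wt (2 ^ k1) (5 * y) := by linarith
        rw [← ENNReal.ofReal_mul (by positivity), ← ENNReal.ofReal_add (by positivity)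
          (by positivity)]
        apply ENNReal.ofReal_le_ofReal
        have h5 : e / 128 * (wt (2 ^ k1) y / 25) ≤ e / 128 * wt (2 ^ k1) (5 * y) := by gcongr
        have h6 : Real.pi * R ^ 2 * (e / 3200 * wt (2 ^ k1) y) ≤
            Real.pi * R ^ 2 * (e / 128 * wt (2 ^ k1) (5 * y)) :=
          mul_le_mul_of_nonneg_left (by linarith) (by positivity)
        nlinarith

end KQB
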