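import Pool.Agent.KQB.Defs
import Pool.Agent.KON.Coe

set_option autoImplicit false

/-! # KQB CF : coefficients of products; `F0 (n(1-z))` has nonnegative coefficients -/

open MeasureTheory Metric Set

namespace KQB

theorem coef_mul {f g : ℂ → ℂ} (hf : DifferentiableOn ℂ f (ball 0 1))
    (hg : DifferentiableOn ℂ g (ball 0 1)) (n : ℕ) :
    MPV.coef (fun z => f z * g z) n =
      ∑ j ∈ Finset.range (n + 1), MPV.coef f j * MPV.coef g (n - j) := by
  have hfa : AnalyticAt ℂ f 0 := hf.analyticAt (isOpen_ball.mem_nhds (mem_ball_self one_pos))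
  have hga : AnalyticAt ℂ g 0 := hg.analyticAt (isOpen_ball.mem_nhds (mem_ball_self one_pos))
  unfold MPV.coef
  have h := iteratedDeriv_mul (n := n) hfa.contDiffAt hga.contDiffAt
  have h2 : (f * g) = fun z => f z * g z := rfl
  rw [h2] at h
  rw [h, Finset.sum_div]
  refine Finset.sum_congr rfl fun j hj => ?_
  have hj' : j ≤ n := Nat.lt_succ_iff.1 (Finset.mem_range.1 hj)
  have h3 : (n.factorial : ℂ) = (n.choose j : ℂ) * (j.factorial : ℂ) * ((n - j).factorial : ℂ) := by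
    exact_mod_cast (Nat.choose_mul_factorial_mul_factorial hj').symm
  have h4 : (n.choose j : ℂ) ≠ 0 := by exact_mod_cast (Nat.choose_pos hj').ne'
  have h5 : (j.factorial : ℂ) ≠ 0 := by exact_mod_cast j.factorial_ne_zero
  have h6 : ((n - j).factorial : ℂ) ≠ 0 := by exact_mod_cast (n - j).factorial_ne_zero
  rw [h3]
  field_simp

private theorem cf_re {c : ℝ} (hc : 0 ≤ c) (hc1 : c ≤ 1) {z : ℂ} (hz : z ∈ ball (0 : ℂ) 1) :
    0 < (1 - c * z).re := by
  rw [mem_ball_zero_iff] at hz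
  have h1 : |z.re| < 1 := lt_of_le_of_lt (Complex.abs_re_le_norm z) hz
  rw [abs_lt] at h1
  simp only [Complex.sub_re, Complex.one_re, Complex.mul_re, Complex.ofReal_re, Complex.ofReal_im,
    zero_mul, sub_zero]
  nlinarith

private theorem cf_deriv (b : ℂ) (c : ℝ) {z : ℂ} (hz : 0 < (1 - c * z).re) (a : ℂ) :
    HasDerivAt (fun z : ℂ => a * Complex.exp (-b * Complex.log (1 - c * z)))
      (a * (b * c) * Complex.exp (-(b + 1) * Complex.log (1 - c * z))) z := by
  have hne : 1 - (c : ℂ) * z ≠ 0 := Complex.slitPlane_ne_zero (Or.inl hz)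
  have h0 : HasDerivAt (fun z : ℂ => 1 - (c : ℂ) * z) (-(c : ℂ)) z := by
    simpa using ((hasDerivAt_id z).const_mul (c : ℂ)).const_sub 1
  have h1 := (((h0.clog (Or.inl hz)).const_mul (-b)).cexp).const_mul a
  refine HasDerivAt.congr_deriv h1 ?_
  have h2 : -(b + 1) * Complex.log (1 - c * z) =
      -b * Complex.log (1 - c * z) - Complex.log (1 - c * z) := by
    ring
  rw [h2, Complex.exp_sub, Complex.exp_log hne]
  field_simp

private theorem cf_iter (b : ℂ) (c : ℝ) (k : ℕ) : ∀ z : ℂ, 0 < (1 - c * z).re →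
    iteratedDeriv k (fun z : ℂ => Complex.exp (-b * Complex.log (1 - c * z))) z =
      ((∏ j ∈ Finset.range k, (b + j)) * (c : ℂ) ^ k) *
        Complex.exp (-(b + k) * Complex.log (1 - c * z)) := by
  induction k with
  | zero => intro z _; simp
  | succ k ih =>
    intro z hz
    rw [iteratedDeriv_succ]
    have hopen : IsOpen {z : ℂ | 0 < (1 - c * z).re} :=
      isOpen_lt continuous_const (by fun_prop)
    have h1 : iteratedDeriv k (fun z : ℂ => Complex.exp (-b * Complex.log (1 - c * z))) =ᶠ[nhds z]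
        fun z => ((∏ j ∈ Finset.range k, (b + j)) * (c : ℂ) ^ k) *
          Complex.exp (-(b + k) * Complex.log (1 - c * z)) := by
      filter_upwards [hopen.mem_nhds hz] with w hw using ih w hw
    rw [h1.deriv_eq, (cf_deriv _ _ hz _).deriv, Finset.prod_range_succ, pow_succ]
    push_cast
    rw [add_assoc b]
    ring

private theorem cf_coef {b c : ℝ} (hb : 0 ≤ b) (hc : 0 ≤ c) (k : ℕ) :
    ∃ r : ℝ, 0 ≤ r ∧
      MPV.coef (fun z : ℂ => Complex.exp (-(b : ℂ) * Complex.log (1 - c * z))) k = (r : ℂ) := by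
  refine ⟨(∏ j ∈ Finset.range k, (b + j)) * c ^ k / (k.factorial : ℝ), ?_, ?_⟩
  · have h1 : 0 ≤ ∏ j ∈ Finset.range k, (b + (j : ℝ)) := Finset.prod_nonneg fun j _ => by positivity
    positivity
  · unfold MPV.coef
    rw [cf_iter _ _ k 0 (by simp)]
    simp

private theorem cf_diff {b c : ℝ} (hc : 0 ≤ c) (hc1 : c ≤ 1) :
    DifferentiableOn ℂ (fun z : ℂ => Complex.exp (-(b : ℂ) * Complex.log (1 - c * z)))
      (ball 0 1) := by
  intro z hz
  have h1 := cf_deriv (b : ℂ) c (cf_re hc hc1 hz) 1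
  simp only [one_mul] at h1
  exact h1.differentiableAt.differentiableWithinAt

/-- `F0 (n(1-z)) = C (1-z)^(-1/2) (1-ρz)^(-2e)` with `C > 0` -/
theorem coef_F0 {e N : ℝ} (he : 0 < e) (hN : 0 < N) {n : ℕ} (hn : 1 ≤ n) (m : ℕ) :
    ∃ r : ℝ, 0 ≤ r ∧ MPV.coef (fun z => F0 e N (n * (1 - z))) m = (r : ℂ) := by
  have hn0 : (0 : ℝ) < n := by exact_mod_cast hn
  obtain ⟨ρ, hρ⟩ : ∃ ρ : ℝ, ρ = n / (n + N) := ⟨_, rfl⟩
  have hρ0 : 0 ≤ ρ := by rw [hρ]; positivity
  have hρ1 : ρ ≤ 1 := by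
    rw [hρ, div_le_one (by positivity)]
    linarith
  obtain ⟨C, hC⟩ : ∃ C : ℝ, C = Real.exp (-(1 / 2) * Real.log n - 2 * e * Real.log (n + N)) :=
    ⟨_, rfl⟩
  have hC0 : 0 ≤ C := by rw [hC]; positivity
  have heq : ∀ z ∈ ball (0 : ℂ) 1, F0 e N (n * (1 - z)) =
      (C : ℂ) * (Complex.exp (-((1 / 2 : ℝ) : ℂ) * Complex.log (1 - ((1 : ℝ) : ℂ) * z)) *
        Complex.exp (-((2 * e : ℝ) : ℂ) * Complex.log (1 - (ρ : ℂ) * z))) := by
    intro z hz
    have h1 : Complex.log ((n : ℂ) * (1 - z)) = (Real.log n : ℂ) + Complex.log (1 - z) := by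
      have h2 : 1 - z ≠ 0 := by
        have := cf_re zero_le_one le_rfl hz
        intro h
        rw [Complex.ofReal_one, one_mul, h] at this
        simp at this
      have := Complex.log_ofReal_mul hn0 h2
      rw [← this]
      simp
    have h3 : (n : ℂ) * (1 - z) + N = ((n + N : ℝ) : ℂ) * (1 - (ρ : ℂ) * z) := by
      have h4 : ((n : ℂ) + N) ≠ 0 := by
        have : (n : ℝ) + N ≠ 0 := by positivity
        exact_mod_cast this
      rw [hρ]
      push_cast
      field_simp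
      ring
    have h5 : Complex.log ((n : ℂ) * (1 - z) + N) =
        (Real.log (n + N) : ℂ) + Complex.log (1 - (ρ : ℂ) * z) := by
      rw [h3]
      have h2 : 1 - (ρ : ℂ) * z ≠ 0 := Complex.slitPlane_ne_zero (Or.inl (cf_re hρ0 hρ1 hz))
      exact Complex.log_ofReal_mul (by positivity) h2
    unfold F0
    rw [h1, h5, hC, Complex.ofReal_exp, ← Complex.exp_add, ← Complex.exp_add]
    congr 1
    push_cast
    ring_nf
  rw [MPV.coef_congr heq m]
  have d1 := cf_diff (b := 1 / 2) zero_le_one (le_refl (1 : ℝ))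
  have d2 := cf_diff (b := 2 * e) hρ0 hρ1
  rw [KON.coef_mul (d1.fun_mul d2) (C : ℂ) m, coef_mul d1 d2 m]
  choose r1 hr1 hr1' using fun k => cf_coef (b := 1 / 2) (c := 1) (by norm_num) zero_le_one k
  choose r2 hr2 hr2' using fun k => cf_coef (b := 2 * e) (c := ρ) (by positivity) hρ0 k
  refine ⟨C * ∑ j ∈ Finset.range (m + 1), r1 j * r2 (m - j), ?_, ?_⟩
  · exact mul_nonneg hC0 (Finset.sum_nonneg fun j _ => mul_nonneg (hr1 j) (hr2 _))
  · push_cast
    congr 1
    refine Finset.sum_congr rfl fun j _ => ?_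
    rw [← hr1' j, ← hr2' (m - j)]
    push_cast
    rfl

end KQB
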