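import Pool.Agent.KQB.Defs

set_option autoImplicit false

/-! # KQB CP : the Poisson tail (step 4 of kqb_paper.txt), Chernoff with `θ = 1 + α/4` -/

open Filter Topology

namespace KQB

private theorem hasSum_exp' (x : ℝ) : HasSum (fun j : ℕ => x ^ j / (j.factorial : ℝ)) (Real.exp x) := by
  rw [Real.exp_eq_exp_ℝ]
  exact NormedSpace.expSeries_div_hasSum_exp x

/-- The part of the exponential series outside a set on which `j ≥ m` fails. -/
private theorem tail_le {x θ m : ℝ} (hx : 0 ≤ x) (hθ : 1 ≤ θ) (S : Finset ℕ)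
    (hS : ∀ j : ℕ, j ∉ S → m ≤ (j : ℝ)) :
    Real.exp x ≤ ∑ j ∈ S, x ^ j / (j.factorial : ℝ) +
      Real.exp (θ * x - m * Real.log θ) := by
  have hθ0 : 0 < θ := by linarith
  have h1 := hasSum_exp' x
  have h2 : HasSum (fun j : ℕ => if j ∈ S then x ^ j / (j.factorial : ℝ) else 0)
      (∑ j ∈ S, x ^ j / (j.factorial : ℝ)) := by
    have : ∑ j ∈ S, x ^ j / (j.factorial : ℝ) =
        ∑ j ∈ S, (if j ∈ S then x ^ j / (j.factorial : ℝ) else 0) :=
      Finset.sum_congr rfl fun j hj => by rw [if_pos hj]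
    rw [this]
    exact hasSum_sum_of_ne_finset_zero fun j hj => if_neg hj
  have h3 : HasSum (fun j : ℕ => (θ * x) ^ j / (j.factorial : ℝ) * Real.exp (-(m * Real.log θ)))
      (Real.exp (θ * x) * Real.exp (-(m * Real.log θ))) := (hasSum_exp' (θ * x)).mul_right _
  rw [← Real.exp_add, ← sub_eq_add_neg] at h3
  refine hasSum_le (fun j => ?_) h1 (h2.add h3)
  have p0 : 0 ≤ x ^ j / (j.factorial : ℝ) := by positivity
  split_ifs with hj
  · have : 0 ≤ (θ * x) ^ j / (j.factorial : ℝ) * Real.exp (-(m * Real.log θ)) := by positivity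
    linarith
  · rw [zero_add]
    have hm := hS j hj
    have e1 : θ ^ j = Real.exp (j * Real.log θ) := by
      rw [← Real.log_pow, Real.exp_log (pow_pos hθ0 j)]
    have hl : 0 ≤ Real.log θ := Real.log_nonneg hθ
    have e2 : (1 : ℝ) ≤ θ ^ j * Real.exp (-(m * Real.log θ)) := by
      rw [e1, ← Real.exp_add]
      apply Real.one_le_exp
      nlinarith
    calc x ^ j / (j.factorial : ℝ) = x ^ j / (j.factorial : ℝ) * 1 := (mul_one _).symm
      _ ≤ x ^ j / (j.factorial : ℝ) * (θ ^ j * Real.exp (-(m * Real.log θ))) :=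
          mul_le_mul_of_nonneg_left e2 p0
      _ = (θ * x) ^ j / (j.factorial : ℝ) * Real.exp (-(m * Real.log θ)) := by
          rw [mul_pow]
          ring

theorem pois {α : ℝ} (hα : 0 < α) (hα1 : α ≤ 1 / 2) : ∀ᶠ n : ℕ in atTop,
    Real.exp ((1 - α) * n + (1 - α) / α) / 2 ≤
      ∑ j ∈ (Finset.range (n + 1)).filter (fun j : ℕ => (j : ℝ) ≤ n * (1 - α / 2)),
        ((1 - α) * n + (1 - α) / α) ^ j / (j.factorial : ℝ) := by
  obtain ⟨n0, hn0⟩ := exists_nat_ge (32 / α ^ 2)
  filter_upwards [eventually_ge_atTop n0] with n hn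
  have hn' : 32 / α ^ 2 ≤ (n : ℝ) := hn0.trans (by exact_mod_cast hn)
  have hn2 : 32 ≤ (n : ℝ) * α ^ 2 := by
    rwa [div_le_iff₀ (by positivity)] at hn'
  have hnn : (0 : ℝ) ≤ n := Nat.cast_nonneg n
  set x : ℝ := (1 - α) * n + (1 - α) / α with hx
  have hx0 : 0 ≤ x := by
    have : 0 ≤ (1 - α) / α := div_nonneg (by linarith) hα.le
    have : 0 ≤ (1 - α) * n := mul_nonneg (by linarith) hnn
    linarith
  set θ : ℝ := 1 + α / 4 with hθ
  have hθ0 : 0 < θ := by positivity
  have key := tail_le (m := n * (1 - α / 2)) hx0 (show (1 : ℝ) ≤ θ by rw [hθ]; linarith)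
    ((Finset.range (n + 1)).filter (fun j : ℕ => (j : ℝ) ≤ n * (1 - α / 2))) (by
      intro j hj
      rw [Finset.mem_filter, Finset.mem_range, not_and_or] at hj
      rcases hj with hj | hj
      · have h1 : (n : ℝ) + 1 ≤ j := by
          have : n + 1 ≤ j := by omega
          exact_mod_cast this
        nlinarith
      · exact (not_le.1 hj).le)
  have hlog : (α / 4) / θ ≤ Real.log θ := by
    have := Real.one_sub_inv_le_log_of_pos hθ0
    have e : 1 - θ⁻¹ = (α / 4) / θ := by
      rw [hθ]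
      field_simp
      ring
    rwa [e] at this
  have hlog2 : Real.log 2 < 1 := by
    have := Real.log_two_lt_d9
    linarith
  have hexp : θ * x - n * (1 - α / 2) * Real.log θ ≤ x - Real.log 2 := by
    have h1 : (n : ℝ) * (1 - α / 2) * ((α / 4) / θ) ≤ n * (1 - α / 2) * Real.log θ :=
      mul_le_mul_of_nonneg_left hlog (mul_nonneg hnn (by linarith))
    have h2 : (α / 4) * x = (α / 4) * (1 - α) * n + (1 - α) / 4 := by
      rw [hx]
      field_simp
    have h3 : (α / 4) * (1 - α) * n + α ^ 2 / 16 * n ≤ n * (1 - α / 2) * ((α / 4) / θ) := by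
      rw [mul_div_assoc', le_div_iff₀ hθ0, hθ]
      have : 0 ≤ n * (α ^ 2 / 16 * (1 + α) - α ^ 2 / 16 * (1 + α / 4)) := by
        apply mul_nonneg hnn
        nlinarith [pow_pos hα 3]
      nlinarith
    have h4 : θ * x = x + (α / 4) * x := by rw [hθ]; ring
    rw [h4, h2]
    nlinarith
  have h5 : Real.exp (θ * x - n * (1 - α / 2) * Real.log θ) ≤ Real.exp x / 2 := by
    calc _ ≤ Real.exp (x - Real.log 2) := Real.exp_le_exp.2 hexp
      _ = Real.exp x / 2 := by rw [Real.exp_sub, Real.exp_log (by norm_num)]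
  linarith

end KQB
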