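import Pool.Agent.KQB.Cf
import Pool.Agent.KQB.Cp

set_option autoImplicit false

/-! # KQB CG : the `n`-th coefficient of one scale (step 4 of kqb_paper.txt) -/

open Filter Topology

namespace KQB

/-- `1 - ρ z ≠ 0` on the disc -/
private lemma ne_zero {ρ : ℝ} (h0 : 0 ≤ ρ) (h1 : ρ < 1) {z : ℂ} (hz : z ∈ Metric.ball (0 : ℂ) 1) :
    1 - (ρ : ℂ) * z ≠ 0 := by
  intro h
  have hz' : ‖z‖ < 1 := by simpa using hz
  have h2 : (ρ : ℂ) * z = 1 := by linear_combination -h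
  have h3 : ‖(ρ : ℂ) * z‖ = 1 := by rw [h2]; simp
  rw [norm_mul, Complex.norm_real, Real.norm_eq_abs, abs_of_nonneg h0] at h3
  have h4 : ρ * ‖z‖ ≤ ρ * 1 := mul_le_mul_of_nonneg_left hz'.le h0
  linarith

/-- derivatives of `(1-ρz)^(-4)` -/
private lemma iter_pow {ρ : ℝ} (h0 : 0 ≤ ρ) (h1 : ρ < 1) (j : ℕ) : ∀ z ∈ Metric.ball (0 : ℂ) 1,
    iteratedDeriv j (fun z : ℂ => 1 / (1 - (ρ : ℂ) * z) ^ 4) z =
      ((j + 3).factorial : ℂ) / 6 * (ρ : ℂ) ^ j / (1 - (ρ : ℂ) * z) ^ (j + 4) := by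
  induction j with
  | zero =>
    intro z hz
    rw [iteratedDeriv_zero]
    simp [Nat.factorial]
  | succ j ih =>
    intro z hz
    have hne := ne_zero h0 h1 hz
    rw [iteratedDeriv_succ]
    have he : iteratedDeriv j (fun z : ℂ => 1 / (1 - (ρ : ℂ) * z) ^ 4) =ᶠ[𝓝 z]
        fun z => ((j + 3).factorial : ℂ) / 6 * (ρ : ℂ) ^ j / (1 - (ρ : ℂ) * z) ^ (j + 4) := by
      filter_upwards [Metric.isOpen_ball.mem_nhds hz] with w hw
      exact ih w hw
    rw [he.deriv_eq]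
    have hd : HasDerivAt (fun z : ℂ => 1 - (ρ : ℂ) * z) (-(ρ : ℂ)) z := by
      have := ((hasDerivAt_id z).const_mul (ρ : ℂ)).const_sub 1
      simpa using this
    have hd2 := ((hd.pow (j + 4)).inv (pow_ne_zero _ hne)).const_mul
      (((j + 3).factorial : ℂ) / 6 * (ρ : ℂ) ^ j)
    have hf : (fun z : ℂ => ((j + 3).factorial : ℂ) / 6 * (ρ : ℂ) ^ j /
        (1 - (ρ : ℂ) * z) ^ (j + 4)) = fun z : ℂ => ((j + 3).factorial : ℂ) / 6 * (ρ : ℂ) ^ j *
        ((1 - (ρ : ℂ) * z) ^ (j + 4))⁻¹ := by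
      funext w; rw [div_eq_mul_inv]
    rw [hf]
    refine hd2.deriv.trans ?_
    have hfac : (((j + 1 + 3).factorial : ℕ) : ℂ) = ((j : ℂ) + 4) * ((j + 3).factorial : ℂ) := by
      rw [show j + 1 + 3 = (j + 3) + 1 by ring, Nat.factorial_succ]
      push_cast
      ring
    rw [hfac]
    have e1 : j + 4 - 1 = j + 3 := by omega
    simp only [e1, Pi.pow_apply]
    field_simp
    push_cast
    ring

/-- the coefficients of `(1-ρz)^(-4)` -/
private lemma coef_pow {ρ : ℝ} (h0 : 0 ≤ ρ) (h1 : ρ < 1) (j : ℕ) :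
    MPV.coef (fun z : ℂ => 1 / (1 - (ρ : ℂ) * z) ^ 4) j =
      (((((j : ℝ) + 1) * (j + 2) * (j + 3) / 6 * ρ ^ j : ℝ)) : ℂ) := by
  unfold MPV.coef
  rw [iter_pow h0 h1 j 0 (by simp)]
  have hfac : (((j + 3).factorial : ℕ) : ℂ) =
      ((j : ℂ) + 3) * (((j : ℂ) + 2) * (((j : ℂ) + 1) * (j.factorial : ℂ))) := by
    rw [Nat.factorial_succ, Nat.factorial_succ, Nat.factorial_succ]
    push_cast
    ring
  rw [hfac]
  have hne : (j.factorial : ℂ) ≠ 0 := by exact_mod_cast j.factorial_ne_zero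
  simp only [mul_zero, sub_zero, one_pow, div_one]
  push_cast
  field_simp

/-- the coefficients of `c exp(sz)` -/
private lemma coef_exp (c s : ℝ) (j : ℕ) :
    MPV.coef (fun z : ℂ => (c : ℂ) * Complex.exp ((s : ℂ) * z)) j =
      ((c * (s ^ j / (j.factorial : ℝ)) : ℝ) : ℂ) := by
  unfold MPV.coef
  rw [iteratedDeriv_const_mul_field, iteratedDeriv_cexp_const_mul]
  simp only [mul_zero, Complex.exp_zero, mul_one]
  push_cast
  ring

/-- the `n`-th coefficient as a real sum -/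
private lemma coef_sum {α : ℝ} (hα : 0 < α) {n : ℕ} (hn : 1 ≤ n) :
    MPV.coef (fun z => gk α (n * (1 - z))) n =
      ((∑ j ∈ Finset.range (n + 1),
        (α * Real.exp (-((1 - α) * n)) / (1 + α * n) ^ 4 *
          (((1 - α) * n) ^ j / (j.factorial : ℝ))) *
        ((((n - j : ℕ) : ℝ) + 1) * ((n - j : ℕ) + 2) * ((n - j : ℕ) + 3) / 6 *
          (α * n / (1 + α * n)) ^ (n - j)) : ℝ) : ℂ) := by
  have hn0 : (0 : ℝ) < n := by exact_mod_cast hn
  have ha : 0 < α * n := by positivity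
  set ρ : ℝ := α * n / (1 + α * n) with hρ
  have h0 : 0 ≤ ρ := by positivity
  have h1 : ρ < 1 := by
    rw [hρ, div_lt_one (by positivity)]
    linarith
  have hfun : (fun z : ℂ => gk α (n * (1 - z))) = fun z : ℂ =>
      (((α * Real.exp (-((1 - α) * n)) / (1 + α * n) ^ 4 : ℝ) : ℂ) *
        Complex.exp ((((1 - α) * n : ℝ) : ℂ) * z)) * (1 / (1 - (ρ : ℂ) * z) ^ 4) := by
    funext z
    unfold gk
    have h2 : (1 + (α : ℂ) * ((n : ℂ) * (1 - z))) =
        (1 + (α : ℂ) * n) * (1 - (ρ : ℂ) * z) := by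
      have h3 : (1 + (α : ℂ) * n) ≠ 0 := by
        have : (1 + α * n : ℝ) ≠ 0 := by positivity
        exact_mod_cast this
      rw [hρ]
      push_cast
      field_simp
      ring
    rw [h2, mul_pow]
    have h4 : Complex.exp (-((1 - (α : ℂ)) * ((n : ℂ) * (1 - z)))) =
        Complex.exp (-((1 - (α : ℂ)) * n)) * Complex.exp (((1 - (α : ℂ)) * n) * z) := by
      rw [← Complex.exp_add]
      congr 1
      ring
    rw [h4]
    have h5 : ∀ A E₁ E₂ P Q : ℂ, A * (E₁ * E₂) / (P ^ 4 * Q ^ 4) =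
        A * E₁ / P ^ 4 * E₂ * (1 / Q ^ 4) := by
      intro A E₁ E₂ P Q
      rw [div_eq_mul_inv, mul_inv]
      ring
    rw [h5]
    push_cast
    rfl
  rw [hfun]
  rw [coef_mul]
  · rw [Complex.ofReal_sum]
    refine Finset.sum_congr rfl fun j _ => ?_
    rw [coef_exp, coef_pow h0 h1, ← Complex.ofReal_mul]
  · exact ((differentiable_const _).mul
      ((differentiable_id.const_mul _).cexp)).differentiableOn
  · intro z hz
    have hne := ne_zero h0 h1 hz
    refine DifferentiableAt.differentiableWithinAt ?_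
    refine DifferentiableAt.div (differentiableAt_const _) ?_ (pow_ne_zero _ hne)
    fun_prop

theorem coef_gk {α : ℝ} (hα : 0 < α) (hα1 : α ≤ 1 / 2) : ∀ᶠ n : ℕ in atTop,
    ∃ r : ℝ, 1 / (4200 * n) ≤ r ∧ MPV.coef (fun z => gk α (n * (1 - z))) n = (r : ℂ) := by
  have hbig : ∀ᶠ n : ℕ in atTop, 1 / α ≤ (n : ℝ) :=
    tendsto_natCast_atTop_atTop.eventually_ge_atTop _
  filter_upwards [pois hα hα1, hbig, eventually_ge_atTop 1] with n hp hb hn
  refine ⟨_, ?_, coef_sum hα hn⟩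
  have hn0 : (0 : ℝ) < n := by exact_mod_cast hn
  have ha : 0 < α * n := by positivity
  have ha1 : 1 ≤ α * n := by
    rw [div_le_iff₀ hα] at hb
    linarith
  set s : ℝ := 1 - α with hs
  have hs0 : 0 < s := by rw [hs]; linarith
  set ρ : ℝ := α * n / (1 + α * n) with hρ
  have h0 : 0 < ρ := by positivity
  have hlam : s * n + s / α = s * n / ρ := by
    rw [hρ]
    field_simp
    ring
  rw [hlam] at hp
  set c : ℝ := α * Real.exp (-(s * n)) / (1 + α * n) ^ 4 with hc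
  have hc0 : 0 < c := by positivity
  -- restrict the sum
  have h1 : c * ((α * n / 2) ^ 3 / 6 * ρ ^ n) *
      ∑ j ∈ (Finset.range (n + 1)).filter (fun j : ℕ => (j : ℝ) ≤ n * (1 - α / 2)),
        (s * n / ρ) ^ j / (j.factorial : ℝ) ≤
      ∑ j ∈ Finset.range (n + 1), (c * ((s * n) ^ j / (j.factorial : ℝ))) *
        ((((n - j : ℕ) : ℝ) + 1) * ((n - j : ℕ) + 2) * ((n - j : ℕ) + 3) / 6 * ρ ^ (n - j)) := by
    rw [Finset.mul_sum]
    refine le_trans (Finset.sum_le_sum (g := fun j => (c * ((s * n) ^ j / (j.factorial : ℝ))) *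
        ((((n - j : ℕ) : ℝ) + 1) * ((n - j : ℕ) + 2) * ((n - j : ℕ) + 3) / 6 * ρ ^ (n - j)))
        fun j hj => ?_) (Finset.sum_le_sum_of_subset_of_nonneg (Finset.filter_subset _ _)
        fun j _ _ => by positivity)
    rw [Finset.mem_filter, Finset.mem_range] at hj
    obtain ⟨hj1, hj2⟩ := hj
    have hj3 : j ≤ n := by omega
    have hm : ((n - j : ℕ) : ℝ) = n - j := by push_cast [hj3]; ring
    have hm1 : α * n / 2 ≤ ((n - j : ℕ) : ℝ) := by rw [hm]; linarith
    have hm2 : (α * n / 2) ^ 3 ≤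
        (((n - j : ℕ) : ℝ) + 1) * ((n - j : ℕ) + 2) * ((n - j : ℕ) + 3) := by
      have hm0 : (0 : ℝ) ≤ ((n - j : ℕ) : ℝ) := Nat.cast_nonneg _
      calc (α * n / 2) ^ 3 ≤ ((n - j : ℕ) : ℝ) ^ 3 :=
            pow_le_pow_left₀ (by positivity) hm1 3
        _ ≤ _ := by nlinarith [hm0, mul_nonneg hm0 hm0]
    have hρn : ρ ^ n = ρ ^ j * ρ ^ (n - j) := by rw [← pow_add]; congr 1; omega
    have e1 : c * ((α * n / 2) ^ 3 / 6 * ρ ^ n) * ((s * n / ρ) ^ j / (j.factorial : ℝ)) =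
        (c * ((s * n) ^ j / (j.factorial : ℝ))) * ((α * n / 2) ^ 3 / 6 * ρ ^ (n - j)) := by
      rw [hρn, div_pow (s * n) ρ j]
      have : ρ ^ j ≠ 0 := by positivity
      field_simp
    rw [e1]
    gcongr
  refine le_trans ?_ h1
  have h2 : c * ((α * n / 2) ^ 3 / 6 * ρ ^ n) * (Real.exp (s * n / ρ) / 2) ≤
      c * ((α * n / 2) ^ 3 / 6 * ρ ^ n) *
      ∑ j ∈ (Finset.range (n + 1)).filter (fun j : ℕ => (j : ℝ) ≤ n * (1 - α / 2)),
        (s * n / ρ) ^ j / (j.factorial : ℝ) :=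
    mul_le_mul_of_nonneg_left hp (by positivity)
  refine le_trans ?_ h2
  -- `ρ^n ≥ exp(-1/α)`
  have h3 : Real.exp (-(1 / α)) ≤ ρ ^ n := by
    have h4 : 1 / ρ ≤ Real.exp (1 / (α * n)) := by
      have : 1 / ρ = 1 / (α * n) + 1 := by
        rw [hρ]; field_simp
      rw [this]
      exact Real.add_one_le_exp _
    have h5 : (1 / ρ) ^ n ≤ Real.exp (1 / α) := by
      calc (1 / ρ) ^ n ≤ (Real.exp (1 / (α * n))) ^ n :=
            pow_le_pow_left₀ (by positivity) h4 n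
        _ = Real.exp (1 / α) := by
            rw [← Real.exp_nat_mul]
            congr 1
            field_simp
    rw [Real.exp_neg, one_div_pow] at *
    rw [one_div] at h5
    have h6 := inv_anti₀ (by positivity) h5
    rw [inv_inv] at h6
    simpa using h6
  -- the exponentials
  have h7 : Real.exp (-(s * n)) * Real.exp (s * n / ρ) = Real.exp (1 / α - 1) := by
    rw [← Real.exp_add, ← hlam]
    congr 1
    rw [hs]
    field_simp
    ring
  have h8 : Real.exp (-1) ≤ Real.exp (-(s * n)) * ρ ^ n * Real.exp (s * n / ρ) := by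
    calc Real.exp (-1) = Real.exp (-(1 / α)) * Real.exp (1 / α - 1) := by
          rw [← Real.exp_add]; congr 1; ring
      _ ≤ ρ ^ n * Real.exp (1 / α - 1) := by gcongr
      _ = _ := by rw [← h7]; ring
  have h9 : Real.exp 1 < 2.7182818286 := Real.exp_one_lt_d9
  have h10 : 1 / 2.7182818286 ≤ Real.exp (-1) := by
    rw [Real.exp_neg, ← one_div]
    exact one_div_le_one_div_of_le (Real.exp_pos _) h9.le
  have h11 : (1 + α * n) ^ 4 ≤ (2 * (α * n)) ^ 4 := pow_le_pow_left₀ (by positivity) (by linarith) 4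
  calc 1 / (4200 * (n : ℝ)) ≤ α * ((α * n / 2) ^ 3 / 6) / (2 * (α * n)) ^ 4 *
        (1 / 2.7182818286) / 2 := by
        have e2 : α * ((α * n / 2) ^ 3 / 6) / (2 * (α * n)) ^ 4 * (1 / 2.7182818286) / 2 =
            1 / (1536 * 2.7182818286 * n) := by
          field_simp
          ring
        rw [e2]
        refine one_div_le_one_div_of_le (by positivity) ?_
        nlinarith
    _ ≤ α * ((α * n / 2) ^ 3 / 6) / (1 + α * n) ^ 4 *
        (Real.exp (-(s * n)) * ρ ^ n * Real.exp (s * n / ρ)) / 2 := by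
        have := h10.trans h8
        gcongr
    _ = _ := by
        rw [hc]
        ring

end KQB
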