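import Mathlib
import Pool.Agent.MPV.Defs

set_option autoImplicit false

/-!
# KQB : `K_p ≥ c (p - 1/4)^(-1/2)` (problem MP_a1ed50_an)

`e = p - 1/4`.  On the right half plane `F0 u = u^(-1/2) (u+N)^(-2e)` and
`gg u = ε N^(-2e) ∑ gk 2^(-k) u` (`N = 2^k1`).  The functions `z ↦ (F0 + gg) (n (1-z))` are mean
`p`-valent and have a large `n`-th coefficient.
-/

open MeasureTheory Metric Set

namespace KQB

/-- `u^(-1/2) (u+N)^(-2e)` -/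
noncomputable def F0 (e N : ℝ) (u : ℂ) : ℂ :=
  Complex.exp (-(1 / 2) * Complex.log u - 2 * e * Complex.log (u + N))

/-- `K = u/(u+N)` -/
noncomputable def Kq (N : ℝ) (u : ℂ) : ℂ := u / (u + N)

/-- `Re (1/2 + 2 e K)` -/
noncomputable def aa (e N : ℝ) (u : ℂ) : ℝ := 1 / 2 + 2 * e * (Kq N u).re

/-- one scale: `α exp(-(1-α)u) (1+αu)^(-4)` -/
noncomputable def gk (α : ℝ) (u : ℂ) : ℂ :=
  α * Complex.exp (-((1 - α) * u)) / (1 + α * u) ^ 4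

/-- the perturbation, scales `2^(-k)`, `k0 ≤ k ≤ k1`, `N = 2^k1` -/
noncomputable def gg (ε e : ℝ) (k0 k1 : ℕ) (u : ℂ) : ℂ :=
  ((ε * ((2 : ℝ) ^ k1) ^ (-(2 * e)) : ℝ) : ℂ) * ∑ k ∈ Finset.Icc k0 k1, gk ((1 / 2 : ℝ) ^ k) u

/-- `min 1 (N/x)^2` -/
noncomputable def wt (N x : ℝ) : ℝ := min 1 ((N / x) ^ 2)

/-- `x^(-1) (x+N)^(-4e)` -/
noncomputable def MM (e N x : ℝ) : ℝ := x⁻¹ * (x + N) ^ (-(4 * e))

/-- the point `x e^{iφ}` -/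
noncomputable def pt (x φ : ℝ) : ℂ := x * Complex.exp (φ * Complex.I)

/-- `(5/2) ε B`, `B = 4 ∑ α_k x^(1/2) (1+α_k x)^(-4) (1+x/N)` -/
noncomputable def bb (ε : ℝ) (k0 k1 : ℕ) (x : ℝ) : ℝ :=
  5 / 2 * ε * (4 * ∑ k ∈ Finset.Icc k0 k1,
    (1 / 2 : ℝ) ^ k * Real.sqrt x / (1 + (1 / 2 : ℝ) ^ k * x) ^ 4 * (1 + x / (2 : ℝ) ^ k1))

end KQB
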