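import Pool.Agent.KQB.Defs

set_option autoImplicit false

/-! # KQB FF : facts on `F0` (step 1 of kqb_paper.txt) -/

open MeasureTheory Metric Set

namespace KQB

theorem pt_norm {x : ℝ} (hx : 0 ≤ x) (φ : ℝ) : ‖pt x φ‖ = x := by
  unfold pt
  rw [norm_mul, Complex.norm_exp_ofReal_mul_I, mul_one, Complex.norm_real, Real.norm_of_nonneg hx]

theorem pt_re (x φ : ℝ) : (pt x φ).re = x * Real.cos φ := by
  unfold pt
  rw [Complex.re_ofReal_mul, Complex.exp_ofReal_mul_I_re]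

private theorem slit {u : ℂ} (hu : 0 < u.re) : u ∈ Complex.slitPlane := Or.inl hu

private theorem add_re {N : ℝ} (hN : 0 ≤ N) {u : ℂ} (hu : 0 < u.re) : 0 < (u + N).re := by
  rw [Complex.add_re, Complex.ofReal_re]
  linarith

private theorem ne_of_re {u : ℂ} (hu : 0 < u.re) : u ≠ 0 := by
  rintro rfl
  simp at hu

private theorem F0_hd {e N : ℝ} (hN : 0 ≤ N) {u : ℂ} (hu : 0 < u.re) :
    HasDerivAt (F0 e N) (F0 e N u * (-(1 / 2) * u⁻¹ - 2 * e * (u + N)⁻¹)) u := by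
  have h1 : HasDerivAt Complex.log u⁻¹ u := Complex.hasDerivAt_log (slit hu)
  have h2 : HasDerivAt (fun v : ℂ => Complex.log (v + N)) (u + N)⁻¹ u := by
    have h3 : HasDerivAt (fun v : ℂ => v + (N : ℂ)) 1 u := (hasDerivAt_id u).add_const _
    have h4 := h3.clog (slit (add_re hN hu))
    rwa [one_div] at h4
  exact ((h1.const_mul (-(1 / 2) : ℂ)).sub (h2.const_mul (2 * (e : ℂ)))).cexp

theorem F0_diff {e N : ℝ} (hN : 0 ≤ N) : DifferentiableOn ℂ (F0 e N) {u | 0 < u.re} := by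
  intro u hu
  exact (F0_hd hN hu).differentiableAt.differentiableWithinAt

/-- the norm of `F0` -/
private theorem F0_norm (e N : ℝ) (u : ℂ) :
    ‖F0 e N u‖ = Real.exp (-(1 / 2) * Real.log ‖u‖ - 2 * e * Real.log ‖u + N‖) := by
  unfold F0
  rw [Complex.norm_exp]
  congr 1
  have h1 : (-(1 / 2 : ℂ) * Complex.log u).re = -(1 / 2) * Real.log ‖u‖ := by
    have : (-(1 / 2 : ℂ)) = ((-(1 / 2) : ℝ) : ℂ) := by push_cast; ring
    rw [this, Complex.re_ofReal_mul, Complex.log_re]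
  have h2 : (2 * (e : ℂ) * Complex.log (u + N)).re = 2 * e * Real.log ‖u + N‖ := by
    have : (2 * (e : ℂ)) = ((2 * e : ℝ) : ℂ) := by push_cast; ring
    rw [this, Complex.re_ofReal_mul, Complex.log_re]
  rw [Complex.sub_re, h1, h2]

private theorem F0_sq (e N : ℝ) (u : ℂ) :
    ‖F0 e N u‖ ^ 2 = Real.exp (-Real.log ‖u‖ - 4 * e * Real.log ‖u + N‖) := by
  rw [F0_norm, ← Real.exp_nat_mul]
  congr 1
  push_cast
  ring

private theorem nsq {N : ℝ} (u : ℂ) : ‖u + N‖ ^ 2 = ‖u‖ ^ 2 + 2 * N * u.re + N ^ 2 := by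
  rw [← Complex.normSq_eq_norm_sq, ← Complex.normSq_eq_norm_sq, Complex.normSq_apply,
    Complex.normSq_apply, Complex.add_re, Complex.add_im, Complex.ofReal_re, Complex.ofReal_im]
  ring

private theorem nup {N : ℝ} (hN : 0 ≤ N) (u : ℂ) : ‖u + N‖ ≤ ‖u‖ + N := by
  refine (norm_add_le _ _).trans ?_
  rw [Complex.norm_real, Real.norm_of_nonneg hN]

private theorem nlow {N : ℝ} (hN : 0 ≤ N) {u : ℂ} (hu : 0 < u.re) : (‖u‖ + N) ^ 2 ≤ 2 * ‖u + N‖ ^ 2 := by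
  rw [nsq]
  have : 0 ≤ N * u.re := mul_nonneg hN hu.le
  nlinarith [sq_nonneg (‖u‖ - N)]

private theorem MM_exp {e N x : ℝ} (hN : 0 < N) (hx : 0 < x) :
    MM e N x = Real.exp (-Real.log x - 4 * e * Real.log (x + N)) := by
  unfold MM
  rw [Real.rpow_def_of_pos (by linarith), sub_eq_add_neg, Real.exp_add, Real.exp_neg,
    Real.exp_log hx]
  congr 2
  ring

theorem F0_bd {e N : ℝ} (he : 0 ≤ e) (he1 : e ≤ 1 / 8) (hN : 0 < N) {u : ℂ} (hu : 0 < u.re) :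
    MM e N ‖u‖ ≤ ‖F0 e N u‖ ^ 2 ∧ ‖F0 e N u‖ ^ 2 ≤ 2 * MM e N ‖u‖ := by
  have hx : 0 < ‖u‖ := norm_pos_iff.2 (ne_of_re hu)
  have hn : 0 < ‖u + N‖ := norm_pos_iff.2 (ne_of_re (add_re hN.le hu))
  rw [MM_exp hN hx, F0_sq]
  have h1 : Real.log ‖u + N‖ ≤ Real.log (‖u‖ + N) := Real.log_le_log hn (nup hN.le u)
  have h2 : 2 * Real.log (‖u‖ + N) ≤ Real.log 2 + 2 * Real.log ‖u + N‖ := by
    have h3 := Real.log_le_log (by positivity) (nlow hN.le hu)
    rw [Real.log_mul (by norm_num) (by positivity), Real.log_pow, Real.log_pow] at h3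
    push_cast at h3
    linarith
  constructor
  · refine Real.exp_le_exp.2 ?_
    nlinarith
  · have h4 : ∀ t : ℝ, 2 * Real.exp t = Real.exp (Real.log 2 + t) := fun t => by
      rw [Real.exp_add, Real.exp_log (by norm_num)]
    rw [h4]
    refine Real.exp_le_exp.2 ?_
    have h5 : 0 < Real.log 2 := Real.log_pos (by norm_num)
    nlinarith

/-- the lower bound in the form needed for `gg` -/
theorem F0_low {e N : ℝ} (he : 0 ≤ e) (he1 : e ≤ 1 / 8) (hN : 1 ≤ N) {u : ℂ} (hu : 0 < u.re) :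
    N ^ (-(2 * e)) ≤ Real.sqrt ‖u‖ * (1 + ‖u‖ / N) * ‖F0 e N u‖ := by
  have hN0 : 0 < N := by linarith
  have hx : 0 < ‖u‖ := norm_pos_iff.2 (ne_of_re hu)
  have hn : 0 < ‖u + N‖ := norm_pos_iff.2 (ne_of_re (add_re hN0.le hu))
  have h1 : Real.log ‖u + N‖ ≤ Real.log (‖u‖ + N) := Real.log_le_log hn (nup hN0.le u)
  have h3 : Real.sqrt ‖u‖ = Real.exp (1 / 2 * Real.log ‖u‖) := by
    rw [Real.sqrt_eq_rpow, Real.rpow_def_of_pos hx]
    congr 1
    ring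
  have h4 : 1 + ‖u‖ / N = Real.exp (Real.log (‖u‖ + N) - Real.log N) := by
    rw [Real.exp_sub, Real.exp_log (by linarith), Real.exp_log hN0]
    field_simp
    ring
  rw [F0_norm, h3, h4, ← Real.exp_add, ← Real.exp_add, Real.rpow_def_of_pos hN0]
  refine Real.exp_le_exp.2 ?_
  have h5 : Real.log N ≤ Real.log (‖u‖ + N) := Real.log_le_log hN0 (by linarith)
  nlinarith

private theorem Kq_re {N : ℝ} (hN : 0 ≤ N) {u : ℂ} (hu : 0 < u.re) :
    (Kq N u).re = (‖u‖ ^ 2 + N * u.re) / ‖u + N‖ ^ 2 := by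
  have hn : u + N ≠ 0 := ne_of_re (add_re hN hu)
  unfold Kq
  rw [Complex.div_re, ← Complex.normSq_eq_norm_sq (u + N), ← Complex.normSq_eq_norm_sq u,
    Complex.normSq_apply u, Complex.add_re, Complex.add_im, Complex.ofReal_re, Complex.ofReal_im]
  ring

private theorem Kq_im {N : ℝ} (hN : 0 ≤ N) {u : ℂ} (hu : 0 < u.re) :
    (Kq N u).im = N * u.im / ‖u + N‖ ^ 2 := by
  have hn : u + N ≠ 0 := ne_of_re (add_re hN hu)
  unfold Kq
  rw [Complex.div_im, ← Complex.normSq_eq_norm_sq (u + N), Complex.add_re, Complex.add_im,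
    Complex.ofReal_re, Complex.ofReal_im]
  ring

theorem aa_bd {e N : ℝ} (he : 0 ≤ e) (he1 : e ≤ 1 / 8) (hN : 0 < N) {u : ℂ} (hu : 0 < u.re) :
    1 / 2 ≤ aa e N u ∧ aa e N u ≤ 1 := by
  have hn : 0 < ‖u + N‖ ^ 2 := by
    have := norm_pos_iff.2 (ne_of_re (add_re hN.le hu))
    positivity
  have hr : 0 < N * u.re := mul_pos hN hu
  have h0 : 0 ≤ (Kq N u).re := by
    rw [Kq_re hN.le hu]
    positivity
  have h1 : (Kq N u).re ≤ 1 := by
    rw [Kq_re hN.le hu, div_le_one hn, nsq]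
    nlinarith
  unfold aa
  constructor
  · nlinarith [mul_nonneg he h0]
  · nlinarith [mul_nonneg he h0, mul_le_mul_of_nonneg_left h1 he]

private theorem dF {e N : ℝ} (hN : 0 < N) {u : ℂ} (hu : 0 < u.re) :
    ‖deriv (F0 e N) u‖ = ‖F0 e N u‖ / ‖u‖ * ‖(1 / 2 + 2 * e * Kq N u : ℂ)‖ := by
  have hn : u + N ≠ 0 := ne_of_re (add_re hN.le hu)
  have h0 : u ≠ 0 := ne_of_re hu
  rw [(F0_hd hN.le hu).deriv]
  have h1 : F0 e N u * (-(1 / 2) * u⁻¹ - 2 * e * (u + N)⁻¹) =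
      -(F0 e N u / u * (1 / 2 + 2 * e * Kq N u)) := by
    unfold Kq
    field_simp
    ring
  rw [h1, norm_neg, norm_mul, norm_div]

private theorem nK {e N : ℝ} (u : ℂ) :
    ‖(1 / 2 + 2 * e * Kq N u : ℂ)‖ ^ 2 = aa e N u ^ 2 + (2 * e * (Kq N u).im) ^ 2 := by
  have h1 : (1 / 2 + 2 * e * Kq N u : ℂ).re = aa e N u := by
    have : (2 * (e : ℂ)) = ((2 * e : ℝ) : ℂ) := by push_cast; ring
    unfold aa
    rw [Complex.add_re, this, Complex.re_ofReal_mul]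
    norm_num
  have h2 : (1 / 2 + 2 * e * Kq N u : ℂ).im = 2 * e * (Kq N u).im := by
    have : (2 * (e : ℂ)) = ((2 * e : ℝ) : ℂ) := by push_cast; ring
    rw [Complex.add_im, this, Complex.im_ofReal_mul]
    norm_num
  rw [← Complex.normSq_eq_norm_sq, Complex.normSq_apply, h1, h2]
  ring

private theorem im_sq {N : ℝ} (hN : 0 < N) {u : ℂ} (hu : 0 < u.re) :
    (Kq N u).im ^ 2 ≤ N ^ 2 / ‖u + N‖ ^ 2 := by
  have hn : 0 < ‖u + N‖ := norm_pos_iff.2 (ne_of_re (add_re hN.le hu))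
  rw [Kq_im hN.le hu, div_pow, mul_pow, div_le_div_iff₀ (by positivity) (by positivity)]
  have h1 : u.im ^ 2 ≤ ‖u + N‖ ^ 2 := by
    have : (u + N).im = u.im := by simp
    rw [← this]
    have := Complex.abs_im_le_norm (u + N)
    rw [← sq_abs]
    exact pow_le_pow_left₀ (abs_nonneg _) this 2
  have h2 : 0 < N ^ 2 * ‖u + N‖ ^ 2 := by positivity
  nlinarith [mul_le_mul_of_nonneg_left h1 h2.le]

private theorem key {e N : ℝ} (he : 0 ≤ e) (he1 : e ≤ 1 / 8) (hN : 0 < N) {u : ℂ} (hu : 0 < u.re) :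
    ‖(1 / 2 + 2 * e * Kq N u : ℂ)‖ ^ 2 ≤ (1 / 2 + 2 * e - e / 4 * wt N ‖u‖) * aa e N u := by
  have hx : 0 < ‖u‖ := norm_pos_iff.2 (ne_of_re hu)
  have hn : 0 < ‖u + N‖ := norm_pos_iff.2 (ne_of_re (add_re hN.le hu))
  have ha := (aa_bd he he1 hN hu).1
  have him := im_sq hN hu
  set q : ℝ := N ^ 2 / ‖u + N‖ ^ 2 with hq
  have hq0 : 0 < q := by positivity
  -- `Re K ≤ 1 - q`
  have hre : (Kq N u).re ≤ 1 - q := by
    rw [Kq_re hN.le hu, hq, div_le_iff₀ (by positivity), sub_mul, div_mul_cancel₀ _ (by positivity),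
      one_mul, nsq]
    nlinarith [mul_pos hN hu]
  -- `w / 4 ≤ q`
  have hw : wt N ‖u‖ / 4 ≤ q := by
    have h1 : N ^ 2 / (‖u‖ + N) ^ 2 ≤ q := by
      rw [hq]
      refine div_le_div_of_nonneg_left (by positivity) (by positivity) ?_
      exact pow_le_pow_left₀ hn.le (nup hN.le u) 2
    refine le_trans ?_ h1
    rcases le_total ‖u‖ N with h2 | h2
    · have h3 : wt N ‖u‖ ≤ 1 := min_le_left _ _
      have h4 : (1 : ℝ) / 4 ≤ N ^ 2 / (‖u‖ + N) ^ 2 := by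
        rw [div_le_div_iff₀ (by norm_num) (by positivity)]
        nlinarith
      linarith
    · have h3 : wt N ‖u‖ ≤ (N / ‖u‖) ^ 2 := min_le_right _ _
      have h4 : (N / ‖u‖) ^ 2 / 4 ≤ N ^ 2 / (‖u‖ + N) ^ 2 := by
        rw [div_pow, div_div, div_le_div_iff₀ (by positivity) (by positivity)]
        have h5 : (‖u‖ + N) ^ 2 ≤ ‖u‖ ^ 2 * 4 := by nlinarith
        have h6 : 0 < N ^ 2 := by positivity
        nlinarith [mul_le_mul_of_nonneg_left h5 h6.le]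
      linarith
  rw [nK]
  have h1 : aa e N u + 8 * e ^ 2 * (Kq N u).im ^ 2 ≤ 1 / 2 + 2 * e - e / 4 * wt N ‖u‖ := by
    unfold aa
    have h2 : 8 * e ^ 2 * (Kq N u).im ^ 2 ≤ e * q := by
      have h3 : 8 * e ^ 2 ≤ e := by nlinarith
      calc 8 * e ^ 2 * (Kq N u).im ^ 2 ≤ e * (Kq N u).im ^ 2 :=
            mul_le_mul_of_nonneg_right h3 (sq_nonneg _)
        _ ≤ e * q := mul_le_mul_of_nonneg_left him he
    have h4 : e * (wt N ‖u‖ / 4) ≤ e * q := mul_le_mul_of_nonneg_left hw he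
    have h5 : e * (Kq N u).re ≤ e * (1 - q) := mul_le_mul_of_nonneg_left hre he
    nlinarith
  have h6 : 4 * e ^ 2 * (Kq N u).im ^ 2 ≤ 8 * e ^ 2 * (Kq N u).im ^ 2 * aa e N u := by
    have h7 : 0 ≤ 8 * e ^ 2 * (Kq N u).im ^ 2 := by positivity
    nlinarith [mul_le_mul_of_nonneg_left ha h7]
  have h8 : 0 < aa e N u := by linarith
  have h9 := mul_le_mul_of_nonneg_right h1 h8.le
  nlinarith

theorem F0_der1 {e N : ℝ} (he : 0 ≤ e) (he1 : e ≤ 1 / 8) (hN : 0 < N) {u : ℂ} (hu : 0 < u.re) :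
    ‖deriv (F0 e N) u‖ ≤ ‖F0 e N u‖ / ‖u‖ := by
  have hx : 0 < ‖u‖ := norm_pos_iff.2 (ne_of_re hu)
  have hw : 0 ≤ wt N ‖u‖ := le_min zero_le_one (sq_nonneg _)
  have ha := aa_bd he he1 hN hu
  have h1 : ‖(1 / 2 + 2 * e * Kq N u : ℂ)‖ ≤ 1 := by
    have h2 := key he he1 hN hu
    have h3 : (1 / 2 + 2 * e - e / 4 * wt N ‖u‖) * aa e N u ≤ 1 := by
      have h4 : 1 / 2 + 2 * e - e / 4 * wt N ‖u‖ ≤ 1 := by nlinarith [mul_nonneg he hw]
      have h5 : 0 ≤ aa e N u := by linarith [ha.1]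
      nlinarith [mul_le_mul_of_nonneg_right h4 h5, ha.2]
    have h6 : 0 ≤ ‖(1 / 2 + 2 * e * Kq N u : ℂ)‖ := norm_nonneg _
    nlinarith
  rw [dF hN hu]
  exact mul_le_of_le_one_right (by positivity) h1

theorem F0_der2 {e N : ℝ} (he : 0 ≤ e) (he1 : e ≤ 1 / 8) (hN : 0 < N) {u : ℂ} (hu : 0 < u.re) :
    ‖deriv (F0 e N) u‖ ^ 2 ≤
      (1 / 2 + 2 * e - e / 4 * wt N ‖u‖) * aa e N u * ‖F0 e N u‖ ^ 2 / ‖u‖ ^ 2 := by
  have hx : 0 < ‖u‖ := norm_pos_iff.2 (ne_of_re hu)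
  rw [dF hN hu, mul_pow, div_pow]
  have h1 := mul_le_mul_of_nonneg_left (key he he1 hN hu)
    (show 0 ≤ ‖F0 e N u‖ ^ 2 / ‖u‖ ^ 2 by positivity)
  refine h1.trans (le_of_eq ?_)
  ring

theorem F0_ray {e N : ℝ} (hN : 0 < N) {φ x : ℝ} (hφ : |φ| < Real.pi / 2) (hx : 0 < x) :
    HasDerivAt (fun x => ‖F0 e N (pt x φ)‖ ^ 2)
      (-(2 / x) * aa e N (pt x φ) * ‖F0 e N (pt x φ)‖ ^ 2) x := by
  have hc : 0 < Real.cos φ := Real.cos_pos_of_mem_Ioo ⟨by linarith [(abs_lt.1 hφ).1], (abs_lt.1 hφ).2⟩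
  have hQ : ∀ y : ℝ, 0 < y → ‖pt y φ + N‖ ^ 2 = y ^ 2 + 2 * N * (y * Real.cos φ) + N ^ 2 := by
    intro y hy
    rw [nsq, pt_norm hy.le, pt_re]
  have hQ0 : ∀ y : ℝ, 0 < y → 0 < y ^ 2 + 2 * N * (y * Real.cos φ) + N ^ 2 := by
    intro y hy
    positivity
  have hform : ∀ y : ℝ, 0 < y → ‖F0 e N (pt y φ)‖ ^ 2 =
      Real.exp (-Real.log y - 2 * e * Real.log (y ^ 2 + 2 * N * (y * Real.cos φ) + N ^ 2)) := by
    intro y hy
    rw [F0_sq, pt_norm hy.le, ← hQ y hy, Real.log_pow]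
    congr 1
    push_cast
    ring
  have hev : (fun y => ‖F0 e N (pt y φ)‖ ^ 2) =ᶠ[nhds x] fun y =>
      Real.exp (-Real.log y - 2 * e * Real.log (y ^ 2 + 2 * N * (y * Real.cos φ) + N ^ 2)) := by
    filter_upwards [Ioi_mem_nhds hx] with y hy
    exact hform y hy
  have hd : HasDerivAt (fun y : ℝ => y ^ 2 + 2 * N * (y * Real.cos φ) + N ^ 2)
      (2 * x + 2 * N * Real.cos φ) x := by
    have h1 := (hasDerivAt_pow 2 x).add
      (((hasDerivAt_id x).mul_const (Real.cos φ)).const_mul (2 * N))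
    have h2 := h1.add_const (N ^ 2)
    refine h2.congr_deriv ?_
    push_cast
    ring
  have h3 : HasDerivAt (fun y => Real.exp (-Real.log y -
      2 * e * Real.log (y ^ 2 + 2 * N * (y * Real.cos φ) + N ^ 2)))
      (Real.exp (-Real.log x - 2 * e * Real.log (x ^ 2 + 2 * N * (x * Real.cos φ) + N ^ 2)) *
        (-x⁻¹ - 2 * e * ((2 * x + 2 * N * Real.cos φ) /
          (x ^ 2 + 2 * N * (x * Real.cos φ) + N ^ 2)))) x :=
    ((Real.hasDerivAt_log hx.ne').neg.sub ((hd.log (hQ0 x hx).ne').const_mul (2 * e))).exp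
  refine (h3.congr_of_eventuallyEq hev).congr_deriv ?_
  rw [hform x hx]
  have hre : (Kq N (pt x φ)).re =
      (x ^ 2 + N * (x * Real.cos φ)) / (x ^ 2 + 2 * N * (x * Real.cos φ) + N ^ 2) := by
    rw [Kq_re hN.le (by rw [pt_re]; positivity), hQ x hx, pt_norm hx.le, pt_re]
  unfold aa
  rw [hre]
  have h4 := (hQ0 x hx).ne'
  set E := Real.exp (-Real.log x - 2 * e * Real.log (x ^ 2 + 2 * N * (x * Real.cos φ) + N ^ 2))
  field_simp
  ring

theorem MM_pos {e N x : ℝ} (hN : 0 < N) (hx : 0 < x) : 0 < MM e N x := by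
  unfold MM
  have : 0 < x + N := by linarith
  positivity

theorem MM_le {e N x y : ℝ} (he : 0 ≤ e) (hN : 0 < N) (hx : 0 < x) (hxy : x ≤ y) :
    MM e N y ≤ x / y * MM e N x := by
  have hy : 0 < y := hx.trans_le hxy
  unfold MM
  have h1 : (y + N) ^ (-(4 * e)) ≤ (x + N) ^ (-(4 * e)) :=
    Real.rpow_le_rpow_of_nonpos (by linarith) (by linarith) (by linarith)
  have h2 : x / y * (x⁻¹ * (x + N) ^ (-(4 * e))) = y⁻¹ * (x + N) ^ (-(4 * e)) := by
    field_simp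
  rw [h2]
  exact mul_le_mul_of_nonneg_left h1 (by positivity)

theorem MM_ivt {e N c : ℝ} (he : 0 ≤ e) (he1 : e ≤ 1 / 8) (hN : 0 < N) (hc : 0 < c) :
    ∃ y, 0 < y ∧ MM e N y = c := by
  have hA : 0 < (1 + N) ^ (-(4 * e)) := by positivity
  have hB : 0 < N ^ (-(4 * e)) := by positivity
  set x1 : ℝ := min 1 ((1 + N) ^ (-(4 * e)) / c) with hx1
  set x2 : ℝ := max x1 (N ^ (-(4 * e)) / c) with hx2
  have h1 : 0 < x1 := lt_min one_pos (by positivity)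
  have h12 : x1 ≤ x2 := le_max_left _ _
  have h2 : 0 < x2 := h1.trans_le h12
  have hM1 : c ≤ MM e N x1 := by
    have h3 : (1 + N) ^ (-(4 * e)) ≤ (x1 + N) ^ (-(4 * e)) :=
      Real.rpow_le_rpow_of_nonpos (by linarith) (by linarith [min_le_left 1 ((1 + N) ^ (-(4 * e)) / c)])
        (by linarith)
    have h4 : x1 * c ≤ (1 + N) ^ (-(4 * e)) := by
      have := min_le_right 1 ((1 + N) ^ (-(4 * e)) / c)
      rw [← hx1] at this
      rwa [le_div_iff₀ hc] at this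
    unfold MM
    rw [inv_mul_eq_div, le_div_iff₀ h1]
    linarith
  have hM2 : MM e N x2 ≤ c := by
    have h3 : (x2 + N) ^ (-(4 * e)) ≤ N ^ (-(4 * e)) :=
      Real.rpow_le_rpow_of_nonpos hN (by linarith) (by linarith)
    have h4 : N ^ (-(4 * e)) ≤ x2 * c := by
      have := le_max_right x1 (N ^ (-(4 * e)) / c)
      rw [← hx2] at this
      rwa [div_le_iff₀ hc] at this
    unfold MM
    rw [inv_mul_eq_div, div_le_iff₀ h2]
    linarith
  have hcont : ContinuousOn (MM e N) (Icc x1 x2) := by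
    intro y hy
    have hy0 : 0 < y := h1.trans_le hy.1
    unfold MM
    refine ContinuousAt.continuousWithinAt ?_
    refine (continuousAt_inv₀ hy0.ne').mul ?_
    refine ContinuousAt.rpow_const (by fun_prop) (Or.inl ?_)
    linarith
  obtain ⟨y, hy, hyc⟩ := intermediate_value_Icc' h12 hcont ⟨hM2, hM1⟩
  exact ⟨y, h1.trans_le hy.1, hyc⟩

end KQB
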