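import Pool.Agent.KQB.Near
import Pool.Agent.MQK.Kfin

set_option autoImplicit false

/-! # KQB FIN : the theorem for all `1/4 < p < 1` -/

open Filter Topology Metric Set

namespace KQB

theorem gam_le {x : ℝ} (h0 : 1 / 2 ≤ x) (h2 : x ≤ 2) : Real.Gamma x ≤ 2 := by
  have key : ∀ y : ℝ, 1 ≤ y → y ≤ 2 → Real.Gamma y ≤ 1 := by
    intro y h1 h2
    have h11 : (1 : ℝ) ∈ Set.Ioi (0 : ℝ) := by norm_num
    have h12 : (2 : ℝ) ∈ Set.Ioi (0 : ℝ) := by norm_num
    have hc := Real.convexOn_Gamma.2 h11 h12 (by linarith : (0 : ℝ) ≤ 2 - y)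
      (by linarith : (0 : ℝ) ≤ y - 1) (by ring)
    have e1 : (2 - y) • (1 : ℝ) + (y - 1) • (2 : ℝ) = y := by
      simp only [smul_eq_mul]
      ring
    rw [e1, Real.Gamma_one, Real.Gamma_two] at hc
    simp only [smul_eq_mul] at hc
    linarith
  rcases le_total 1 x with h | h
  · linarith [key x h h2]
  · have h3 := key (x + 1) (by linarith) (by linarith)
    rw [Real.Gamma_add_one (by linarith)] at h3
    have h4 : 0 < Real.Gamma x := Real.Gamma_pos_of_pos (by linarith)
    nlinarith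

theorem final : ∃ c : ℝ, 0 < c ∧ ∀ p : ℝ, 1 / 4 < p → p < 1 → ∀ᶠ n : ℕ in atTop,
    ENNReal.ofReal (c / Real.sqrt (p - 1 / 4) * (n : ℝ) ^ (2 * p - 1)) ≤ MPV.A p n := by
  refine ⟨1 / 10 ^ 9, by norm_num, fun p hp hp1 => ?_⟩
  rcases le_total p (26 / 100) with h | h
  · have := near (e := p - 1 / 4) (by linarith) (by linarith)
    have e1 : 1 / 4 + (p - 1 / 4) = p := by ring
    rw [e1] at this
    exact this
  · obtain ⟨c, hc, hev⟩ := MQK.gap hp hp1
    filter_upwards [hev] with n hn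
    refine le_trans (ENNReal.ofReal_le_ofReal ?_) hn
    have h1 : (1 / 10 : ℝ) ≤ Real.sqrt (p - 1 / 4) := by
      apply Real.le_sqrt_of_sq_le
      norm_num
      linarith
    have h2 : 1 / 10 ^ 9 / Real.sqrt (p - 1 / 4) ≤ 1 / 2 := by
      rw [div_le_iff₀ (by linarith)]
      linarith
    have h3 : (1 / 2 : ℝ) ≤ c := by
      refine le_trans ?_ hc.le
      have h4 := gam_le (x := 2 * p) (by linarith) (by linarith)
      have h5 : 0 < Real.Gamma (2 * p) := Real.Gamma_pos_of_pos (by linarith)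
      have h6 : (1 : ℝ) ≤ 4 ^ p := Real.one_le_rpow (by norm_num) (by linarith)
      rw [le_div_iff₀ h5]
      linarith
    gcongr
    linarith

end KQB
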