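import Pool.Agent.KQB.Ff

set_option autoImplicit false

/-! # KQB GB : bounds for `gg` (step 2 of kqb_paper.txt) -/

open MeasureTheory Metric Set

namespace KQB

/-! ### one scale -/

theorem one_add_re {α : ℝ} (hα : 0 ≤ α) {u : ℂ} (hu : 0 < u.re) : 1 ≤ (1 + (α : ℂ) * u).re := by
  simp only [Complex.add_re, Complex.one_re, Complex.mul_re, Complex.ofReal_re, Complex.ofReal_im,
    zero_mul, sub_zero]
  nlinarith [mul_nonneg hα hu.le]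

theorem one_add_ne {α : ℝ} (hα : 0 ≤ α) {u : ℂ} (hu : 0 < u.re) : (1 + (α : ℂ) * u) ≠ 0 := by
  intro h
  have := one_add_re hα hu
  rw [h] at this
  simp at this
  linarith

theorem one_le_norm {α : ℝ} (hα : 0 ≤ α) {u : ℂ} (hu : 0 < u.re) : 1 ≤ ‖1 + (α : ℂ) * u‖ :=
  (one_add_re hα hu).trans (Complex.re_le_norm _)

theorem norm_low {α : ℝ} (hα : 0 ≤ α) {u : ℂ} (hu : 0 < u.re) :
    (1 + α * ‖u‖) ^ 4 ≤ 4 * ‖1 + (α : ℂ) * u‖ ^ 4 := by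
  have h1 : ‖1 + (α : ℂ) * u‖ ^ 2 = 1 + 2 * α * u.re + α ^ 2 * ‖u‖ ^ 2 := by
    rw [Complex.sq_norm, Complex.sq_norm, Complex.normSq_apply, Complex.normSq_apply]
    simp only [Complex.add_re, Complex.one_re, Complex.mul_re, Complex.ofReal_re, Complex.ofReal_im,
      Complex.add_im, Complex.one_im, Complex.mul_im]
    ring
  have h2 : (1 + α * ‖u‖) ^ 2 ≤ 2 * ‖1 + (α : ℂ) * u‖ ^ 2 := by
    rw [h1]
    nlinarith [mul_nonneg hα hu.le, sq_nonneg (1 - α * ‖u‖)]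
  have h3 : (0 : ℝ) ≤ (1 + α * ‖u‖) ^ 2 := sq_nonneg _
  have h4 := mul_le_mul h2 h2 h3 (h3.trans h2)
  calc (1 + α * ‖u‖) ^ 4 = (1 + α * ‖u‖) ^ 2 * (1 + α * ‖u‖) ^ 2 := by ring
    _ ≤ _ := h4
    _ = 4 * ‖1 + (α : ℂ) * u‖ ^ 4 := by ring

theorem norm_exp_gk {α : ℝ} (u : ℂ) :
    ‖Complex.exp (-((1 - (α : ℂ)) * u))‖ = Real.exp (-((1 - α) * u.re)) := by
  rw [Complex.norm_exp]
  congr 1
  simp only [Complex.neg_re, Complex.mul_re, Complex.sub_re, Complex.one_re, Complex.ofReal_re,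
    Complex.sub_im, Complex.one_im, Complex.ofReal_im, sub_zero, zero_mul]

theorem inv_low {α : ℝ} (hα : 0 ≤ α) {u : ℂ} (hu : 0 < u.re) :
    (‖1 + (α : ℂ) * u‖ ^ 4)⁻¹ ≤ 4 / (1 + α * ‖u‖) ^ 4 := by
  have h1 := norm_low hα hu
  have h2 : 0 < ‖1 + (α : ℂ) * u‖ := lt_of_lt_of_le one_pos (one_le_norm hα hu)
  have h3 : 0 < 1 + α * ‖u‖ := by positivity
  rw [inv_eq_one_div, div_le_div_iff₀ (by positivity) (by positivity), one_mul]
  exact h1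

theorem gk_bd {α : ℝ} (hα : 0 ≤ α) (hα1 : α ≤ 1) {u : ℂ} (hu : 0 < u.re) :
    ‖gk α u‖ ≤ 4 * (α / (1 + α * ‖u‖) ^ 4) := by
  unfold gk
  rw [norm_div, norm_mul, norm_pow, norm_exp_gk, Complex.norm_real, Real.norm_of_nonneg hα, div_eq_mul_inv]
  have h1 : Real.exp (-((1 - α) * u.re)) ≤ 1 := by
    rw [Real.exp_le_one_iff]
    nlinarith
  have h2 := inv_low hα hu
  have h3 : (0 : ℝ) ≤ (‖1 + (α : ℂ) * u‖ ^ 4)⁻¹ := by positivity
  calc α * Real.exp (-((1 - α) * u.re)) * (‖1 + (α : ℂ) * u‖ ^ 4)⁻¹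
      ≤ α * 1 * (4 / (1 + α * ‖u‖) ^ 4) :=
        mul_le_mul (mul_le_mul_of_nonneg_left h1 hα) h2 h3 (by linarith)
    _ = _ := by ring

/-- the derivative of one scale -/
noncomputable def gk' (α : ℝ) (u : ℂ) : ℂ :=
  α * Complex.exp (-((1 - α) * u)) * (-(1 - α) - 4 * α / (1 + α * u)) / (1 + α * u) ^ 4

theorem gk_deriv {α : ℝ} (hα : 0 ≤ α) {u : ℂ} (hu : 0 < u.re) : HasDerivAt (gk α) (gk' α u) u := by
  have hne := one_add_ne hα hu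
  have h1 : HasDerivAt (fun u : ℂ => Complex.exp (-((1 - (α : ℂ)) * u)))
      (Complex.exp (-((1 - (α : ℂ)) * u)) * (-((1 - (α : ℂ)) * 1))) u :=
    ((hasDerivAt_id u).const_mul (1 - (α : ℂ))).neg.cexp
  have h2 : HasDerivAt (fun u : ℂ => (1 + (α : ℂ) * u)) ((α : ℂ) * 1) u :=
    ((hasDerivAt_id u).const_mul (α : ℂ)).const_add 1
  have h3 := h2.pow 4
  have h4 := (h1.const_mul (α : ℂ)).div h3 (pow_ne_zero 4 hne)
  refine h4.congr_deriv ?_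
  unfold gk'
  simp only [Pi.pow_apply]
  field_simp
  ring

theorem gk'_bd {α : ℝ} (hα : 0 ≤ α) (hα1 : α ≤ 1 / 2) {u : ℂ} (hu : 0 < u.re) :
    ‖gk' α u‖ ≤ 5 / 2 * (4 * (α / (1 + α * ‖u‖) ^ 4)) * Real.exp (-(u.re / 2)) := by
  unfold gk'
  rw [norm_div, norm_mul, norm_mul, norm_pow, norm_exp_gk, Complex.norm_real, Real.norm_of_nonneg hα,
    div_eq_mul_inv]
  have h1 : Real.exp (-((1 - α) * u.re)) ≤ Real.exp (-(u.re / 2)) := by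
    apply Real.exp_le_exp.2
    nlinarith
  have h2 := inv_low hα hu
  have h3 : (0 : ℝ) ≤ (‖1 + (α : ℂ) * u‖ ^ 4)⁻¹ := by positivity
  have h4 : ‖-(1 - (α : ℂ)) - 4 * α / (1 + α * u)‖ ≤ 5 / 2 := by
    have h5 : ‖-(1 - (α : ℂ))‖ = 1 - α := by
      rw [norm_neg, ← Complex.ofReal_one, ← Complex.ofReal_sub, Complex.norm_real,
        Real.norm_of_nonneg (by linarith)]
    have h6 : ‖4 * (α : ℂ) / (1 + α * u)‖ ≤ 4 * α := by
      rw [norm_div, norm_mul, Complex.norm_real, Real.norm_of_nonneg hα]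
      have h7 : ‖(4 : ℂ)‖ = 4 := by norm_num
      rw [h7]
      exact div_le_self (by linarith) (one_le_norm hα hu)
    calc _ ≤ ‖-(1 - (α : ℂ))‖ + ‖4 * (α : ℂ) / (1 + α * u)‖ := norm_sub_le _ _
      _ ≤ (1 - α) + 4 * α := by
          rw [h5]
          linarith
      _ ≤ 5 / 2 := by linarith
  have h8 : (0 : ℝ) ≤ α * Real.exp (-((1 - α) * u.re)) := by positivity
  calc α * Real.exp (-((1 - α) * u.re)) * ‖-(1 - (α : ℂ)) - 4 * α / (1 + α * u)‖ *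
        (‖1 + (α : ℂ) * u‖ ^ 4)⁻¹
      ≤ (α * Real.exp (-(u.re / 2)) * (5 / 2)) * (4 / (1 + α * ‖u‖) ^ 4) := by
        refine mul_le_mul (mul_le_mul (mul_le_mul_of_nonneg_left h1 hα) h4 (norm_nonneg _) (by positivity))
          h2 h3 (by positivity)
    _ = _ := by ring

/-! ### sums of real numbers -/

theorem wt_one {N x : ℝ} (hN : 0 < N) (hx : 0 < x) : 1 ≤ wt N x * (1 + x / N) ^ 2 := by
  unfold wt
  have h0 : 0 < x / N := by positivity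
  rcases le_total 1 ((N / x) ^ 2) with h | h
  · rw [min_eq_left h]
    nlinarith
  · rw [min_eq_right h]
    have h1 : (N / x) ^ 2 * (1 + x / N) ^ 2 = (N / x + 1) ^ 2 := by
      field_simp
    rw [h1]
    have h2 : 0 < N / x := by positivity
    nlinarith

theorem wt_nonneg (N x : ℝ) : 0 ≤ wt N x := le_min zero_le_one (sq_nonneg _)

theorem half_pow_le {k k1 : ℕ} (hk : k ≤ k1) {x : ℝ} (hx : 0 < x) :
    1 + x / 2 ^ k1 ≤ 1 + (1 / 2 : ℝ) ^ k * x := by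
  have h1 : (1 / 2 : ℝ) ^ k1 ≤ (1 / 2) ^ k := pow_le_pow_of_le_one (by norm_num) (by norm_num) hk
  have h2 : x / 2 ^ k1 = (1 / 2 : ℝ) ^ k1 * x := by
    rw [one_div, inv_pow]
    ring
  rw [h2]
  nlinarith

theorem term1 {α c w x : ℝ} (hα : 0 ≤ α) (hx : 0 < x) (hc : 1 ≤ c) (hcT : c ≤ 1 + α * x)
    (hw : 0 ≤ w) (hwc : 1 ≤ w * c ^ 2) :
    α * √x / (1 + α * x) ^ 4 * c ≤ w * (√α / 2) := by
  have hT : 0 < 1 + α * x := by positivity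
  have hs : √α * √α = α := Real.mul_self_sqrt hα
  have hsx : √x * √x = x := Real.mul_self_sqrt hx.le
  have h1 : c ^ 3 ≤ (1 + α * x) ^ 3 := pow_le_pow_left₀ (by linarith) hcT 3
  have h2 : α * √x / (1 + α * x) ^ 4 * c ≤ w * (α * √x / (1 + α * x)) := by
    have h3 : 0 ≤ α * √x / (1 + α * x) ^ 4 * c := by positivity
    calc α * √x / (1 + α * x) ^ 4 * c = (α * √x / (1 + α * x) ^ 4 * c) * 1 := (mul_one _).symm
      _ ≤ (α * √x / (1 + α * x) ^ 4 * c) * (w * c ^ 2) := mul_le_mul_of_nonneg_left hwc h3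
      _ = w * (α * √x) / (1 + α * x) ^ 4 * c ^ 3 := by ring
      _ ≤ w * (α * √x) / (1 + α * x) ^ 4 * (1 + α * x) ^ 3 := mul_le_mul_of_nonneg_left h1 (by positivity)
      _ = w * (α * √x / (1 + α * x)) := by
          field_simp
  refine h2.trans (mul_le_mul_of_nonneg_left ?_ hw)
  rw [div_le_div_iff₀ hT two_pos]
  have h4 := sq_nonneg (1 - √α * √x)
  have h5 : 2 * (√α * √x) ≤ 1 + α * x := by
    have : (√α * √x) ^ 2 = α * x := by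
      calc (√α * √x) ^ 2 = (√α * √α) * (√x * √x) := by ring
        _ = α * x := by rw [hs, hsx]
    nlinarith
  calc α * √x * 2 = √α * (2 * (√α * √x)) := by
        calc α * √x * 2 = (√α * √α) * √x * 2 := by rw [hs]
          _ = _ := by ring
    _ ≤ √α * (1 + α * x) := mul_le_mul_of_nonneg_left h5 (Real.sqrt_nonneg _)

theorem term2 {α c v x : ℝ} (hα : 0 ≤ α) (hx : 0 < x) (hc : 1 ≤ c) (hcT : c ≤ 1 + α * x)
    (hv : 0 ≤ v) (hvc : 1 ≤ v * c) :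
    √x * (α * √x / (1 + α * x) ^ 4 * c) ≤ v * (α * x / (1 + α * x) ^ 2) := by
  have hT : 0 < 1 + α * x := by positivity
  have hsx : √x * √x = x := Real.mul_self_sqrt hx.le
  have h1 : c ^ 2 ≤ (1 + α * x) ^ 2 := pow_le_pow_left₀ (by linarith) hcT 2
  have h3 : 0 ≤ α * x / (1 + α * x) ^ 4 * c := by positivity
  calc √x * (α * √x / (1 + α * x) ^ 4 * c) = α * (√x * √x) / (1 + α * x) ^ 4 * c := by ring
    _ = (α * x / (1 + α * x) ^ 4 * c) * 1 := by rw [hsx, mul_one]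
    _ ≤ (α * x / (1 + α * x) ^ 4 * c) * (v * c) := mul_le_mul_of_nonneg_left hvc h3
    _ = v * (α * x) / (1 + α * x) ^ 4 * c ^ 2 := by ring
    _ ≤ v * (α * x) / (1 + α * x) ^ 4 * (1 + α * x) ^ 2 := mul_le_mul_of_nonneg_left h1 (by positivity)
    _ = v * (α * x / (1 + α * x) ^ 2) := by field_simp

theorem sum_geo (k0 k1 : ℕ) : ∑ k ∈ Finset.Icc k0 k1, √((1 / 2 : ℝ) ^ k) ≤ 7 / 2 * √((1 / 2 : ℝ) ^ k0) := by
  set s : ℝ := √(1 / 2) with hs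
  have hs0 : 0 ≤ s := Real.sqrt_nonneg _
  have hs2 : s * s = 1 / 2 := Real.mul_self_sqrt (by norm_num)
  have hs1 : s ≤ 5 / 7 := by nlinarith
  have e : ∀ k : ℕ, √((1 / 2 : ℝ) ^ k) = s ^ k := by
    intro k
    rw [hs, Real.sqrt_eq_iff_mul_self_eq (by positivity) (by positivity), ← mul_pow, Real.mul_self_sqrt (by norm_num)]
  simp only [e]
  have key : ∀ m : ℕ, k0 ≤ m + 1 → ∑ k ∈ Finset.Icc k0 m, s ^ k ≤ 7 / 2 * (s ^ k0 - s ^ (m + 1)) := by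
    intro m
    induction m with
    | zero =>
      intro h
      rcases Nat.eq_zero_or_pos k0 with rfl | h0
      · simp only [Finset.Icc_self, Finset.sum_singleton, pow_zero, zero_add, pow_one]
        linarith
      · have : k0 = 1 := by omega
        subst this
        simp
    | succ m ih =>
      intro h
      rcases Nat.lt_or_ge (m + 1) k0 with h1 | h1
      · have : k0 = m + 1 + 1 := by omega
        subst this
        rw [Finset.Icc_eq_empty (by omega)]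
        simp
      · rw [← Finset.insert_Icc_right_eq_Icc_add_one h1, Finset.sum_insert (by simp)]
        have h2 := ih h1
        have h3 : (0 : ℝ) ≤ s ^ (m + 1) := by positivity
        have h4 : s ^ (m + 1 + 1) = s ^ (m + 1) * s := pow_succ _ _
        rw [h4]
        nlinarith
  rcases Nat.lt_or_ge k1 k0 with h | h
  · rw [Finset.Icc_eq_empty (by omega), Finset.sum_empty]
    positivity
  · have h1 := key k1 (by omega)
    have h2 : (0 : ℝ) ≤ s ^ (k1 + 1) := by positivity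
    linarith

theorem sum_tel (k0 k1 : ℕ) {x : ℝ} (hx : 0 < x) :
    ∑ k ∈ Finset.Icc k0 k1, ((1 / 2 : ℝ) ^ k * x / (1 + (1 / 2 : ℝ) ^ k * x) ^ 2) ≤ 2 := by
  have hstep : ∀ k : ℕ, (1 / 2 : ℝ) ^ k * x / (1 + (1 / 2 : ℝ) ^ k * x) ^ 2 ≤
      2 * (1 / (1 + (1 / 2 : ℝ) ^ (k + 1) * x) - 1 / (1 + (1 / 2 : ℝ) ^ k * x)) := by
    intro k
    set t : ℝ := (1 / 2 : ℝ) ^ k * x with ht
    have ht0 : 0 < t := by positivity
    have e : (1 / 2 : ℝ) ^ (k + 1) * x = t / 2 := by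
      rw [ht, pow_succ]
      ring
    rw [e]
    have e2 : 2 * (1 / (1 + t / 2) - 1 / (1 + t)) = t / ((1 + t / 2) * (1 + t)) := by
      field_simp
      ring
    rw [e2, div_le_div_iff₀ (by positivity) (by positivity)]
    have h1 : (1 + t / 2) * (1 + t) ≤ (1 + t) ^ 2 := by nlinarith
    exact mul_le_mul_of_nonneg_left h1 ht0.le
  have key : ∀ m : ℕ, ∑ k ∈ Finset.Icc k0 m, ((1 / 2 : ℝ) ^ k * x / (1 + (1 / 2 : ℝ) ^ k * x) ^ 2) ≤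
      2 * (1 / (1 + (1 / 2 : ℝ) ^ (m + 1) * x)) := by
    intro m
    induction m with
    | zero =>
      rcases Nat.eq_zero_or_pos k0 with rfl | h0
      · simp only [Finset.Icc_self, Finset.sum_singleton]
        have h1 := hstep 0
        have h2 : 0 ≤ 1 / (1 + (1 / 2 : ℝ) ^ 0 * x) := by positivity
        linarith
      · rw [Finset.Icc_eq_empty (by omega), Finset.sum_empty]
        positivity
    | succ m ih =>
      rcases Nat.lt_or_ge (m + 1) k0 with h1 | h1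
      · rw [Finset.Icc_eq_empty (by omega), Finset.sum_empty]
        positivity
      · rw [← Finset.insert_Icc_right_eq_Icc_add_one h1, Finset.sum_insert (by simp)]
        have h2 := hstep (m + 1)
        linarith
  refine (key k1).trans ?_
  have h1 : 1 / (1 + (1 / 2 : ℝ) ^ (k1 + 1) * x) ≤ 1 := by
    rw [div_le_one (by positivity)]
    have : 0 ≤ (1 / 2 : ℝ) ^ (k1 + 1) * x := by positivity
    linarith
  linarith

/-- the sum in `bb` -/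
noncomputable def bs (k0 k1 : ℕ) (x : ℝ) : ℝ :=
  4 * ∑ k ∈ Finset.Icc k0 k1,
    (1 / 2 : ℝ) ^ k * Real.sqrt x / (1 + (1 / 2 : ℝ) ^ k * x) ^ 4 * (1 + x / (2 : ℝ) ^ k1)

theorem bb_eq (ε : ℝ) (k0 k1 : ℕ) (x : ℝ) : bb ε k0 k1 x = 5 / 2 * ε * bs k0 k1 x := rfl

theorem bs_nonneg (k0 k1 : ℕ) {x : ℝ} (hx : 0 < x) : 0 ≤ bs k0 k1 x := by
  unfold bs
  have : 0 ≤ ∑ k ∈ Finset.Icc k0 k1,
    (1 / 2 : ℝ) ^ k * Real.sqrt x / (1 + (1 / 2 : ℝ) ^ k * x) ^ 4 * (1 + x / (2 : ℝ) ^ k1) :=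
    Finset.sum_nonneg fun k _ => by positivity
  linarith

theorem bs_le1 (k0 k1 : ℕ) {x : ℝ} (hx : 0 < x) :
    bs k0 k1 x ≤ 7 * √((1 / 2 : ℝ) ^ k0) * wt (2 ^ k1) x := by
  have hw := wt_nonneg (2 ^ k1) x
  have hwc := wt_one (N := 2 ^ k1) (by positivity) hx
  have h1 : ∑ k ∈ Finset.Icc k0 k1,
      (1 / 2 : ℝ) ^ k * Real.sqrt x / (1 + (1 / 2 : ℝ) ^ k * x) ^ 4 * (1 + x / (2 : ℝ) ^ k1) ≤
      ∑ k ∈ Finset.Icc k0 k1, wt (2 ^ k1) x * (√((1 / 2 : ℝ) ^ k) / 2) := by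
    refine Finset.sum_le_sum fun k hk => ?_
    have hk1 := (Finset.mem_Icc.1 hk).2
    have hc : (1 : ℝ) ≤ 1 + x / 2 ^ k1 := by
      have : 0 ≤ x / 2 ^ k1 := by positivity
      linarith
    exact term1 (by positivity) hx hc (half_pow_le hk1 hx) hw hwc
  rw [← Finset.mul_sum, ← Finset.sum_div] at h1
  have h2 := sum_geo k0 k1
  unfold bs
  have h3 : wt (2 ^ k1) x * ((∑ k ∈ Finset.Icc k0 k1, √((1 / 2 : ℝ) ^ k)) / 2) ≤
      wt (2 ^ k1) x * (7 / 2 * √((1 / 2 : ℝ) ^ k0) / 2) :=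
    mul_le_mul_of_nonneg_left (by linarith) hw
  linarith

theorem bs_le2 (k0 k1 : ℕ) {x : ℝ} (hx : 0 < x) : bs k0 k1 x ^ 2 * x ≤ 64 * wt (2 ^ k1) x := by
  have hw := wt_nonneg (2 ^ k1) x
  set v := √(wt (2 ^ k1) x) with hv
  have hv0 : 0 ≤ v := Real.sqrt_nonneg _
  have hvv : v * v = wt (2 ^ k1) x := Real.mul_self_sqrt hw
  have hc : (1 : ℝ) ≤ 1 + x / 2 ^ k1 := by
    have : 0 ≤ x / 2 ^ k1 := by positivity
    linarith
  have hvc : 1 ≤ v * (1 + x / 2 ^ k1) := by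
    have h1 := wt_one (N := 2 ^ k1) (by positivity) hx
    rw [← hvv] at h1
    by_contra hcon
    push Not at hcon
    have h2 : 0 ≤ v * (1 + x / 2 ^ k1) := by positivity
    nlinarith
  have h1 : √x * bs k0 k1 x ≤ 8 * v := by
    unfold bs
    have h2 : √x * ∑ k ∈ Finset.Icc k0 k1,
        (1 / 2 : ℝ) ^ k * Real.sqrt x / (1 + (1 / 2 : ℝ) ^ k * x) ^ 4 * (1 + x / (2 : ℝ) ^ k1) ≤
        v * 2 := by
      rw [Finset.mul_sum]
      calc _ ≤ ∑ k ∈ Finset.Icc k0 k1, v * ((1 / 2 : ℝ) ^ k * x / (1 + (1 / 2 : ℝ) ^ k * x) ^ 2) := by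
            refine Finset.sum_le_sum fun k hk => ?_
            exact term2 (by positivity) hx hc (half_pow_le (Finset.mem_Icc.1 hk).2 hx) hv0 hvc
        _ = v * ∑ k ∈ Finset.Icc k0 k1, ((1 / 2 : ℝ) ^ k * x / (1 + (1 / 2 : ℝ) ^ k * x) ^ 2) := by
            rw [Finset.mul_sum]
        _ ≤ v * 2 := mul_le_mul_of_nonneg_left (sum_tel k0 k1 hx) hv0
    linarith
  have h3 : 0 ≤ √x * bs k0 k1 x := mul_nonneg (Real.sqrt_nonneg _) (bs_nonneg k0 k1 hx)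
  have h4 := mul_le_mul h1 h1 h3 (h3.trans h1)
  have hsx : √x * √x = x := Real.mul_self_sqrt hx.le
  calc bs k0 k1 x ^ 2 * x = bs k0 k1 x ^ 2 * (√x * √x) := by rw [hsx]
    _ = (√x * bs k0 k1 x) * (√x * bs k0 k1 x) := by ring
    _ ≤ 8 * v * (8 * v) := h4
    _ = 64 * (v * v) := by ring
    _ = 64 * wt (2 ^ k1) x := by rw [hvv]

/-! ### the perturbation -/

theorem half_le {k k0 : ℕ} (hk : 1 ≤ k0) (h : k0 ≤ k) : (1 / 2 : ℝ) ^ k ≤ 1 / 2 := by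
  calc (1 / 2 : ℝ) ^ k ≤ (1 / 2) ^ 1 := pow_le_pow_of_le_one (by norm_num) (by norm_num) (by omega)
    _ = 1 / 2 := pow_one _

theorem gg_hasDeriv (ε e : ℝ) (k0 k1 : ℕ) {u : ℂ} (hu : 0 < u.re) :
    HasDerivAt (gg ε e k0 k1) (((ε * ((2 : ℝ) ^ k1) ^ (-(2 * e)) : ℝ) : ℂ) *
      ∑ k ∈ Finset.Icc k0 k1, gk' ((1 / 2 : ℝ) ^ k) u) u := by
  have h1 : HasDerivAt (fun u => ∑ k ∈ Finset.Icc k0 k1, gk ((1 / 2 : ℝ) ^ k) u)
      (∑ k ∈ Finset.Icc k0 k1, gk' ((1 / 2 : ℝ) ^ k) u) u :=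
    HasDerivAt.fun_sum fun k _ => gk_deriv (by positivity) hu
  exact h1.const_mul _

theorem gg_diff (ε e : ℝ) (k0 k1 : ℕ) : DifferentiableOn ℂ (gg ε e k0 k1) {u | 0 < u.re} :=
  fun _ hu => (gg_hasDeriv ε e k0 k1 hu).differentiableAt.differentiableWithinAt

theorem coef_norm {ε e : ℝ} (hε : 0 ≤ ε) (k1 : ℕ) :
    ‖((ε * ((2 : ℝ) ^ k1) ^ (-(2 * e)) : ℝ) : ℂ)‖ = ε * ((2 : ℝ) ^ k1) ^ (-(2 * e)) := by
  rw [Complex.norm_real, Real.norm_of_nonneg (by positivity)]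

theorem pull (k0 k1 : ℕ) (x : ℝ) :
    √x * (1 + x / 2 ^ k1) * ∑ k ∈ Finset.Icc k0 k1, 4 * ((1 / 2 : ℝ) ^ k / (1 + (1 / 2 : ℝ) ^ k * x) ^ 4) =
      bs k0 k1 x := by
  unfold bs
  rw [Finset.mul_sum, Finset.mul_sum]
  refine Finset.sum_congr rfl fun k _ => ?_
  ring

theorem gg_bd {ε e : ℝ} (hε : 0 ≤ ε) (he : 0 ≤ e) (he1 : e ≤ 1 / 8) {k0 k1 : ℕ} (hk : 1 ≤ k0)
    {u : ℂ} (hu : 0 < u.re) : ‖gg ε e k0 k1 u‖ ≤
      7 * ε * Real.sqrt ((1 / 2 : ℝ) ^ k0) * wt (2 ^ k1) ‖u‖ * ‖F0 e (2 ^ k1) u‖ := by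
  have hx : 0 < ‖u‖ := by
    refine norm_pos_iff.2 ?_
    rintro rfl
    simp at hu
  have hlow := F0_low (N := 2 ^ k1) he he1 (one_le_pow₀ (by norm_num)) hu
  set S := ∑ k ∈ Finset.Icc k0 k1, 4 * ((1 / 2 : ℝ) ^ k / (1 + (1 / 2 : ℝ) ^ k * ‖u‖) ^ 4) with hS
  have hS0 : 0 ≤ S := Finset.sum_nonneg fun k _ => by positivity
  have h1 : ‖∑ k ∈ Finset.Icc k0 k1, gk ((1 / 2 : ℝ) ^ k) u‖ ≤ S := by
    refine (norm_sum_le _ _).trans (Finset.sum_le_sum fun k hk' => ?_)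
    exact gk_bd (by positivity) ((half_le hk (Finset.mem_Icc.1 hk').1).trans (by norm_num)) hu
  unfold gg
  rw [norm_mul, coef_norm hε]
  calc ε * ((2 : ℝ) ^ k1) ^ (-(2 * e)) * ‖∑ k ∈ Finset.Icc k0 k1, gk ((1 / 2 : ℝ) ^ k) u‖
      ≤ ε * (√‖u‖ * (1 + ‖u‖ / 2 ^ k1) * ‖F0 e (2 ^ k1) u‖) * S :=
        mul_le_mul (mul_le_mul_of_nonneg_left hlow hε) h1 (norm_nonneg _) (by positivity)
    _ = ε * ‖F0 e (2 ^ k1) u‖ * (√‖u‖ * (1 + ‖u‖ / 2 ^ k1) * S) := by ring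
    _ = ε * ‖F0 e (2 ^ k1) u‖ * bs k0 k1 ‖u‖ := by rw [hS, pull]
    _ ≤ ε * ‖F0 e (2 ^ k1) u‖ * (7 * √((1 / 2 : ℝ) ^ k0) * wt (2 ^ k1) ‖u‖) :=
        mul_le_mul_of_nonneg_left (bs_le1 k0 k1 hx) (by positivity)
    _ = _ := by ring

theorem gg_der {ε e : ℝ} (hε : 0 ≤ ε) (he : 0 ≤ e) (he1 : e ≤ 1 / 8) {k0 k1 : ℕ} (hk : 1 ≤ k0)
    {u : ℂ} (hu : 0 < u.re) : ‖deriv (gg ε e k0 k1) u‖ ≤
      bb ε k0 k1 ‖u‖ * Real.exp (-(u.re / 2)) * ‖F0 e (2 ^ k1) u‖ := by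
  have hlow := F0_low (N := 2 ^ k1) he he1 (one_le_pow₀ (by norm_num)) hu
  set S := ∑ k ∈ Finset.Icc k0 k1, 4 * ((1 / 2 : ℝ) ^ k / (1 + (1 / 2 : ℝ) ^ k * ‖u‖) ^ 4) with hS
  have hS0 : 0 ≤ S := Finset.sum_nonneg fun k _ => by positivity
  have h1 : ‖∑ k ∈ Finset.Icc k0 k1, gk' ((1 / 2 : ℝ) ^ k) u‖ ≤ 5 / 2 * S * Real.exp (-(u.re / 2)) := by
    refine (norm_sum_le _ _).trans ?_
    rw [hS, Finset.mul_sum, Finset.sum_mul]
    refine Finset.sum_le_sum fun k hk' => ?_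
    exact gk'_bd (by positivity) (half_le hk (Finset.mem_Icc.1 hk').1) hu
  rw [(gg_hasDeriv ε e k0 k1 hu).deriv, norm_mul, coef_norm hε, bb_eq]
  calc ε * ((2 : ℝ) ^ k1) ^ (-(2 * e)) * ‖∑ k ∈ Finset.Icc k0 k1, gk' ((1 / 2 : ℝ) ^ k) u‖
      ≤ ε * (√‖u‖ * (1 + ‖u‖ / 2 ^ k1) * ‖F0 e (2 ^ k1) u‖) * (5 / 2 * S * Real.exp (-(u.re / 2))) :=
        mul_le_mul (mul_le_mul_of_nonneg_left hlow hε) h1 (norm_nonneg _) (by positivity)
    _ = 5 / 2 * ε * (√‖u‖ * (1 + ‖u‖ / 2 ^ k1) * S) * Real.exp (-(u.re / 2)) * ‖F0 e (2 ^ k1) u‖ := by ring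
    _ = _ := by rw [hS, pull]

theorem bb_bd {ε : ℝ} (hε : 0 ≤ ε) (k0 k1 : ℕ) {x : ℝ} (hx : 0 < x) :
    0 ≤ bb ε k0 k1 x ∧ 4 * bb ε k0 k1 x + bb ε k0 k1 x ^ 2 * x ≤
      (70 * ε * Real.sqrt ((1 / 2 : ℝ) ^ k0) + 400 * ε ^ 2) * wt (2 ^ k1) x := by
  have h0 := bs_nonneg k0 k1 hx
  have h1 := bs_le1 k0 k1 hx
  have h2 := bs_le2 k0 k1 hx
  rw [bb_eq]
  refine ⟨by positivity, ?_⟩
  have h3 : 10 * ε * bs k0 k1 x ≤ 10 * ε * (7 * √((1 / 2 : ℝ) ^ k0) * wt (2 ^ k1) x) :=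
    mul_le_mul_of_nonneg_left h1 (by positivity)
  have h4 : 25 / 4 * ε ^ 2 * (bs k0 k1 x ^ 2 * x) ≤ 25 / 4 * ε ^ 2 * (64 * wt (2 ^ k1) x) :=
    mul_le_mul_of_nonneg_left h2 (by positivity)
  calc 4 * (5 / 2 * ε * bs k0 k1 x) + (5 / 2 * ε * bs k0 k1 x) ^ 2 * x
      = 10 * ε * bs k0 k1 x + 25 / 4 * ε ^ 2 * (bs k0 k1 x ^ 2 * x) := by ring
    _ ≤ 10 * ε * (7 * √((1 / 2 : ℝ) ^ k0) * wt (2 ^ k1) x) + 25 / 4 * ε ^ 2 * (64 * wt (2 ^ k1) x) :=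
        add_le_add h3 h4
    _ = _ := by ring

theorem bb_meas (ε : ℝ) (k0 k1 : ℕ) : Measurable (bb ε k0 k1) := by
  unfold bb
  refine Measurable.const_mul (Measurable.const_mul (Finset.measurable_sum _ fun k _ => ?_) _) _
  refine Measurable.mul (Measurable.div ?_ ?_) ?_
  · exact (Real.continuous_sqrt.measurable).const_mul _
  · exact ((measurable_id.const_mul _).const_add 1).pow_const 4
  · exact (measurable_id.div_const _).const_add 1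

end KQB
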