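import Pool.Agent.KQB.Defs
import Pool.Agent.MPV.Area

set_option autoImplicit false

/-! # KQB MV : from the half plane to the disc -/

open MeasureTheory Metric Set

namespace KQB

private theorem mv_det (n : ℝ) :
    ((-n) • ContinuousLinearMap.id ℝ ℂ).det = n ^ 2 := by
  rw [ContinuousLinearMap.det]
  have h : (((-n) • ContinuousLinearMap.id ℝ ℂ : ℂ →L[ℝ] ℂ) : ℂ →ₗ[ℝ] ℂ) =
      (-n) • (LinearMap.id : ℂ →ₗ[ℝ] ℂ) := rfl
  rw [h, LinearMap.det_smul, LinearMap.det_id, Complex.finrank_real_complex, mul_one, neg_sq]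

/-- `MPV.area_formula`, then `u = n(1-z)` (area scales by `n^2`, the derivative by `n`). -/
theorem mv_disc {p : ℝ} {G : ℂ → ℂ} (hG : DifferentiableOn ℂ G {u | 0 < u.re})
    (hA : ∀ R : ℝ, 0 < R → ∫⁻ u in {u : ℂ | 0 < u.re ∧ ‖G u‖ < R},
      ENNReal.ofReal (‖deriv G u‖ ^ 2) ≤ ENNReal.ofReal (Real.pi * p * R ^ 2))
    {n C : ℝ} (hn : 0 < n) (hC : 0 < C) :
    MPV.MeanValent p (fun z => C * G (n * (1 - z))) := by
  intro R hR
  have hHo : IsOpen {u : ℂ | 0 < u.re} := isOpen_lt continuous_const Complex.continuous_re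
  let T : ℂ → ℂ := fun z => n * (1 - z)
  have hT : ∀ z ∈ ball (0 : ℂ) 1, 0 < (T z).re := by
    intro z hz
    have h1 : z.re < 1 := lt_of_le_of_lt (Complex.re_le_norm z) (by simpa using hz)
    have h2 : (T z).re = n * (1 - z.re) := by simp [T]
    rw [h2]
    exact mul_pos hn (by linarith)
  have hTd : ∀ z, HasDerivAt T (-(n : ℂ)) z := by
    intro z
    have := ((hasDerivAt_id z).const_sub 1).const_mul (n : ℂ)
    simpa using this
  have hGd : ∀ z ∈ ball (0 : ℂ) 1, HasDerivAt G (deriv G (T z)) (T z) := by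
    intro z hz
    exact ((hG _ (hT z hz)).differentiableAt (hHo.mem_nhds (hT z hz))).hasDerivAt
  have hfd : ∀ z ∈ ball (0 : ℂ) 1, HasDerivAt (fun z => (C : ℂ) * G (n * (1 - z)))
      (C * (deriv G (T z) * (-(n : ℂ)))) z := by
    intro z hz
    exact ((hGd z hz).comp z (hTd z)).const_mul (C : ℂ)
  have hf : DifferentiableOn ℂ (fun z => (C : ℂ) * G (n * (1 - z))) (ball 0 1) :=
    fun z hz => (hfd z hz).differentiableAt.differentiableWithinAt
  rw [MPV.area_formula hf measurableSet_ball]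
  set s : Set ℂ := {z | z ∈ ball (0 : ℂ) 1 ∧ (C : ℂ) * G (n * (1 - z)) ∈ ball (0 : ℂ) R} with hs
  have hso : IsOpen s := hf.continuousOn.isOpen_inter_preimage isOpen_ball isOpen_ball
  have hsm : MeasurableSet s := hso.measurableSet
  have hder : ∀ z ∈ s, HasFDerivWithinAt T ((-n) • ContinuousLinearMap.id ℝ ℂ) s z := by
    intro z _
    have h1 := (hTd z).hasFDerivAt.restrictScalars ℝ
    refine (h1.congr_fderiv ?_).hasFDerivWithinAt
    ext
    simp [mul_comm]
  have hinj : InjOn T s := by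
    intro x _ y _ hxy
    have hn' : (n : ℂ) ≠ 0 := by exact_mod_cast hn.ne'
    have := mul_left_cancel₀ hn' hxy
    exact sub_right_inj.1 this
  have hcv := lintegral_image_eq_lintegral_abs_det_fderiv_mul volume hsm hder hinj
    (fun u => ENNReal.ofReal (‖deriv G u‖ ^ 2))
  have h1 : ∫⁻ z in s, ENNReal.ofReal (‖deriv (fun z => (C : ℂ) * G (n * (1 - z))) z‖ ^ 2) =
      ∫⁻ z in s, ENNReal.ofReal (C ^ 2) * (ENNReal.ofReal |((-n) • ContinuousLinearMap.id ℝ ℂ).det| *
        ENNReal.ofReal (‖deriv G (T z)‖ ^ 2)) := by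
    apply setLIntegral_congr_fun hsm
    intro z hz
    beta_reduce
    rw [(hfd z hz.1).deriv, mv_det, abs_of_nonneg (sq_nonneg n), ← ENNReal.ofReal_mul (sq_nonneg n),
      ← ENNReal.ofReal_mul (sq_nonneg C)]
    congr 1
    rw [norm_mul, norm_mul, norm_neg, Complex.norm_real, Complex.norm_real, Real.norm_eq_abs,
      Real.norm_eq_abs, abs_of_pos hC, abs_of_pos hn]
    ring
  rw [h1, lintegral_const_mul' _ _ ENNReal.ofReal_ne_top, ← hcv]
  have h2 : T '' s ⊆ {u : ℂ | 0 < u.re ∧ ‖G u‖ < R / C} := by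
    rintro _ ⟨z, hz, rfl⟩
    refine ⟨hT z hz.1, ?_⟩
    have h3 : ‖(C : ℂ) * G (n * (1 - z))‖ < R := by simpa using hz.2
    rw [norm_mul, Complex.norm_real, Real.norm_eq_abs, abs_of_pos hC] at h3
    rw [lt_div_iff₀ hC, mul_comm]
    exact h3
  calc ENNReal.ofReal (C ^ 2) * ∫⁻ u in T '' s, ENNReal.ofReal (‖deriv G u‖ ^ 2)
      ≤ ENNReal.ofReal (C ^ 2) * ENNReal.ofReal (Real.pi * p * (R / C) ^ 2) := by
        gcongr
        exact (lintegral_mono_set h2).trans (hA (R / C) (div_pos hR hC))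
    _ = ENNReal.ofReal (Real.pi * p * R ^ 2) := by
        rw [← ENNReal.ofReal_mul (sq_nonneg C)]
        congr 1
        field_simp

end KQB
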