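import Pool.Agent.KQB.Ar
import Pool.Agent.KQB.Mv
import Pool.Agent.KQB.Cg

set_option autoImplicit false

/-! # KQB NEAR : the bound for `p ≤ 1/4 + 1/100` (step 5 of kqb_paper.txt) -/

open Filter Topology Metric Set

namespace KQB

theorem fin_pow {m : ℕ} (hm : 50 ≤ m) : 400000 * ((m : ℝ) + 1) ≤ 2 ^ m := by
  induction m, hm using Nat.le_induction with
  | base => norm_num
  | succ k hk ih =>
    rw [pow_succ]
    push_cast
    have : (50 : ℝ) ≤ k := by exact_mod_cast hk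
    linarith

theorem fin_par {e : ℝ} (he : 0 < e) (he1 : e ≤ 1 / 100) {m : ℕ} (hm : m = ⌊1 / (2 * e)⌋₊) :
    Par (Real.sqrt e / 4000) e m (2 * m) ∧ 1 / (2 * e) ≤ (m : ℝ) + 1 ∧ (m : ℝ) ≤ 1 / (2 * e) := by
  have hs : 0 < Real.sqrt e := Real.sqrt_pos.2 he
  have hs2 : Real.sqrt e ^ 2 = e := Real.sq_sqrt he.le
  have h1 : (50 : ℝ) ≤ 1 / (2 * e) := by
    rw [le_div_iff₀ (by positivity)]
    linarith
  have hm50 : 50 ≤ m := by
    rw [hm]
    exact Nat.le_floor (by exact_mod_cast h1)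
  have h2 : 1 / (2 * e) ≤ (m : ℝ) + 1 := by
    rw [hm]
    exact (Nat.lt_floor_add_one _).le
  have h3 : (m : ℝ) ≤ 1 / (2 * e) := by
    rw [hm]
    exact Nat.floor_le (by positivity)
  have h4 : (1 / 2 : ℝ) ^ m ≤ e / 200000 := by
    have h5 := fin_pow hm50
    have h6 : (1 : ℝ) ≤ 2 * e * ((m : ℝ) + 1) := by
      rw [div_le_iff₀ (by positivity)] at h2
      linarith
    rw [one_div, inv_pow, inv_le_comm₀ (by positivity) (by positivity)]
    rw [inv_div, div_le_iff₀ he]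
    nlinarith
  have h5 : Real.sqrt ((1 / 2 : ℝ) ^ m) ≤ Real.sqrt e / 447 := by
    rw [Real.sqrt_le_left (by positivity)]
    have hq : (Real.sqrt e / 447) ^ 2 = e / 199809 := by
      rw [div_pow (Real.sqrt e), hs2]
      norm_num
    rw [hq]
    refine h4.trans ?_
    gcongr
    norm_num
  have h6 : 0 ≤ Real.sqrt ((1 / 2 : ℝ) ^ m) := Real.sqrt_nonneg _
  have h7 : Real.sqrt e / 4000 * Real.sqrt ((1 / 2 : ℝ) ^ m) ≤ e / 1788000 := by
    calc Real.sqrt e / 4000 * Real.sqrt ((1 / 2 : ℝ) ^ m) ≤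
        Real.sqrt e / 4000 * (Real.sqrt e / 447) := by gcongr
      _ = Real.sqrt e ^ 2 / 1788000 := by ring
      _ = e / 1788000 := by rw [hs2]
  refine ⟨⟨by positivity, he, he1, by omega, ?_, ?_⟩, h2, h3⟩
  · have : 7 * (Real.sqrt e / 4000) * Real.sqrt ((1 / 2 : ℝ) ^ m) =
      7 * (Real.sqrt e / 4000 * Real.sqrt ((1 / 2 : ℝ) ^ m)) := by ring
    rw [this]
    linarith
  · have : 70 * (Real.sqrt e / 4000) * Real.sqrt ((1 / 2 : ℝ) ^ m) +
      400 * (Real.sqrt e / 4000) ^ 2 =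
      70 * (Real.sqrt e / 4000 * Real.sqrt ((1 / 2 : ℝ) ^ m)) + e / 40000 := by
      have hq : (Real.sqrt e / 4000) ^ 2 = e / 16000000 := by
        rw [div_pow (Real.sqrt e), hs2]
        norm_num
      rw [hq]
      ring
    rw [this]
    linarith

theorem fin_coef_add {f g : ℂ → ℂ} (hf : DifferentiableOn ℂ f (ball 0 1))
    (hg : DifferentiableOn ℂ g (ball 0 1)) (n : ℕ) :
    MPV.coef (fun z => f z + g z) n = MPV.coef f n + MPV.coef g n := by
  have hfa : AnalyticAt ℂ f 0 := hf.analyticAt (isOpen_ball.mem_nhds (mem_ball_self one_pos))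
  have hga : AnalyticAt ℂ g 0 := hg.analyticAt (isOpen_ball.mem_nhds (mem_ball_self one_pos))
  unfold MPV.coef
  have h := iteratedDeriv_add (n := n) hfa.contDiffAt hga.contDiffAt
  have h2 : (f + g) = fun z => f z + g z := rfl
  rw [h2] at h
  rw [h, add_div]

theorem fin_coef_smul {f : ℂ → ℂ} (hf : DifferentiableOn ℂ f (ball 0 1)) (c : ℂ) (n : ℕ) :
    MPV.coef (fun z => c * f z) n = c * MPV.coef f n := by
  have hfa : AnalyticAt ℂ f 0 := hf.analyticAt (isOpen_ball.mem_nhds (mem_ball_self one_pos))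
  unfold MPV.coef
  rw [iteratedDeriv_const_mul c (hfa.contDiffAt)]
  ring

theorem fin_coef_sum {I : Finset ℕ} {f : ℕ → ℂ → ℂ}
    (hf : ∀ i ∈ I, DifferentiableOn ℂ (f i) (ball 0 1)) (n : ℕ) :
    MPV.coef (fun z => ∑ i ∈ I, f i z) n = ∑ i ∈ I, MPV.coef (f i) n := by
  classical
  induction I using Finset.induction_on with
  | empty =>
    simp only [Finset.sum_empty]
    unfold MPV.coef
    have : iteratedDeriv n (fun _ : ℂ => (0 : ℂ)) 0 = 0 := by
      rw [iteratedDeriv_const]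
      simp
    rw [this, zero_div]
  | insert a s ha ih =>
    simp only [Finset.sum_insert ha]
    rw [fin_coef_add (hf a (Finset.mem_insert_self a s))
      (DifferentiableOn.fun_sum fun i hi => hf i (Finset.mem_insert_of_mem hi)),
      ih fun i hi => hf i (Finset.mem_insert_of_mem hi)]

theorem fin_ball {n : ℕ} (hn : 1 ≤ n) {z : ℂ} (hz : z ∈ ball (0 : ℂ) 1) :
    0 < ((n : ℂ) * (1 - z)).re := by
  rw [mem_ball_zero_iff] at hz
  have h1 := Complex.re_le_norm z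
  have h2 : (0 : ℝ) < n := by exact_mod_cast hn
  have h3 : ((n : ℂ) * (1 - z)).re = n * (1 - z.re) := by simp
  rw [h3]
  have : 0 < 1 - z.re := by linarith
  positivity

theorem gk_diff {α : ℝ} (hα : 0 < α) : DifferentiableOn ℂ (gk α) {u | 0 < u.re} := by
  unfold gk
  refine DifferentiableOn.div (by fun_prop) (by fun_prop) ?_
  intro u hu
  apply pow_ne_zero
  intro h
  have h1 := congrArg Complex.re h
  have hu' : 0 < u.re := hu
  simp at h1
  have : 0 < α * u.re := by positivity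
  linarith

theorem fin_comp {F : ℂ → ℂ} (hF : DifferentiableOn ℂ F {u | 0 < u.re}) {n : ℕ} (hn : 1 ≤ n) :
    DifferentiableOn ℂ (fun z => F (n * (1 - z))) (ball 0 1) :=
  hF.comp (by fun_prop) fun _ hz => fin_ball hn hz

theorem fin_mu {p : ℝ} (hp1 : p < 1) (f : ℂ → ℂ) : MPV.mu p f = ‖f 0‖ := by
  have hfl : ⌊p⌋₊ = 0 := by
    rw [Nat.floor_eq_zero]
    exact hp1
  unfold MPV.mu
  rw [hfl]
  have h1 : (⨆ ν : Fin (0 + 1), ‖MPV.coef f ν‖) = ‖MPV.coef f 0‖ := ciSup_unique (ι := Fin 1)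
  rw [h1]
  simp [MPV.coef]

/-- size of the value at `0` -/
theorem fin_zero {ε e : ℝ} {k0 k1 : ℕ} (h : Par ε e k0 k1) {n : ℕ} (hn : 1 ≤ n) :
    0 < ‖GG ε e k0 k1 n‖ ∧ ‖GG ε e k0 k1 n‖ ≤ 2 * (n : ℝ) ^ (-(2 * (1 / 4 + e))) := by
  have hN : (0 : ℝ) < 2 ^ k1 := by positivity
  have he8 : e ≤ 1 / 8 := by linarith [h.he1]
  have he := h.he
  have hn0 : (0 : ℝ) < n := by exact_mod_cast hn
  have hre : 0 < (n : ℂ).re := by simpa using hn0
  obtain ⟨h1, h2⟩ := GG_comp h hre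
  obtain ⟨h3, h4⟩ := F0_bd he.le he8 hN hre
  have hnn : ‖(n : ℂ)‖ = n := by simp
  rw [hnn] at h3 h4 h1
  have h5 := MM_pos (e := e) hN hn0
  have h6 : 0 < ‖F0 e (2 ^ k1) n‖ := by
    by_contra hc
    have : ‖F0 e (2 ^ k1) n‖ = 0 := le_antisymm (not_lt.1 hc) (norm_nonneg _)
    rw [this] at h3
    norm_num at h3
    linarith
  have h7 := dl_le h
  have h8 := dl_nonneg h
  have h9 := wq_le_one (2 ^ k1) n
  have h10 := wq_nonneg (2 ^ k1) n
  constructor
  · have h11 : dl ε k0 * wt (2 ^ k1) n ≤ 1 / 20000 * 1 := by gcongr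
    have h12 : 0 < ‖F0 e (2 ^ k1) n‖ * (1 - dl ε k0 * wt (2 ^ k1) n) := by
      apply mul_pos h6
      linarith
    linarith
  · have h11 : MM e (2 ^ k1) n ≤ ((n : ℝ) ^ (-(2 * (1 / 4 + e)))) ^ 2 := by
      unfold MM
      have a1 : ((n : ℝ) + 2 ^ k1) ^ (-(4 * e)) ≤ (n : ℝ) ^ (-(4 * e)) :=
        Real.rpow_le_rpow_of_nonpos hn0 (by linarith) (by linarith)
      have a2 : ((n : ℝ) ^ (-(2 * (1 / 4 + e)))) ^ 2 = (n : ℝ)⁻¹ * (n : ℝ) ^ (-(4 * e)) := by
        rw [← Real.rpow_natCast, ← Real.rpow_mul hn0.le, ← Real.rpow_neg_one,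
          ← Real.rpow_add hn0]
        congr 1
        push_cast
        ring
      rw [a2]
      gcongr
    set X := (n : ℝ) ^ (-(2 * (1 / 4 + e))) with hX
    have hX0 : 0 < X := by positivity
    have h12 : ‖F0 e (2 ^ k1) n‖ ^ 2 ≤ 2 * X ^ 2 := by linarith
    have h13 : ‖F0 e (2 ^ k1) n‖ ≤ 3 / 2 * X := by
      by_contra hc
      push Not at hc
      nlinarith
    calc ‖GG ε e k0 k1 n‖ ≤ (1 + dl ε k0) * ‖F0 e (2 ^ k1) n‖ := h2
      _ ≤ (1 + 1 / 20000) * (3 / 2 * X) := by gcongr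
      _ ≤ 2 * X := by nlinarith

theorem near {e : ℝ} (he : 0 < e) (he1 : e ≤ 1 / 100) : ∀ᶠ n : ℕ in atTop,
    ENNReal.ofReal (1 / 10 ^ 9 / Real.sqrt e * (n : ℝ) ^ (2 * (1 / 4 + e) - 1)) ≤
      MPV.A (1 / 4 + e) n := by
  obtain ⟨m, hm⟩ : ∃ m, m = ⌊1 / (2 * e)⌋₊ := ⟨_, rfl⟩
  obtain ⟨hP, hm1, hm2⟩ := fin_par he he1 hm
  set ε := Real.sqrt e / 4000 with hε
  have hs : 0 < Real.sqrt e := Real.sqrt_pos.2 he
  have hs2 : Real.sqrt e ^ 2 = e := Real.sq_sqrt he.le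
  have hN : (0 : ℝ) < 2 ^ (2 * m) := by positivity
  have hall : ∀ᶠ n : ℕ in atTop, ∀ k ∈ Finset.Icc m (2 * m),
      ∃ r : ℝ, 1 / (4200 * n) ≤ r ∧
        MPV.coef (fun z => gk ((1 / 2 : ℝ) ^ k) (n * (1 - z))) n = (r : ℂ) := by
    rw [Filter.eventually_all_finset]
    intro k hk
    have hk1 : 1 ≤ k := by
      have := hP.hk
      have := (Finset.mem_Icc.1 hk).1
      omega
    refine coef_gk (by positivity) ?_
    calc (1 / 2 : ℝ) ^ k ≤ (1 / 2) ^ 1 := pow_le_pow_of_le_one (by norm_num) (by norm_num) hk1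
      _ = 1 / 2 := by norm_num
  filter_upwards [hall, eventually_ge_atTop 1] with n hn hn1
  have hn0 : (0 : ℝ) < n := by exact_mod_cast hn1
  obtain ⟨hz1, hz2⟩ := fin_zero hP hn1
  set c : ℝ := ε * ((2 : ℝ) ^ (2 * m)) ^ (-(2 * e)) with hc
  have hGd : DifferentiableOn ℂ (GG ε e m (2 * m)) {u | 0 < u.re} :=
    (F0_diff hN.le).add (gg_diff ε e m (2 * m))
  set C : ℝ := ‖GG ε e m (2 * m) n‖⁻¹ with hC
  have hC0 : 0 < C := inv_pos.2 hz1
  have hmem : (fun z => (C : ℂ) * GG ε e m (2 * m) (n * (1 - z))) ∈ MPV.S (1 / 4 + e) := by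
    refine ⟨(fin_comp hGd hn1).const_mul _, ?_, ?_⟩
    · have := mv_disc (p := 1 / 4 + e) hGd (fun R hR => area_GG hP hR) hn0 hC0
      simpa using this
    · rw [fin_mu (by linarith)]
      simp only [sub_zero, mul_one, norm_mul, Complex.norm_real, Real.norm_eq_abs,
        abs_of_pos hC0]
      exact inv_mul_cancel₀ hz1.ne'
  have hle : ENNReal.ofReal ‖MPV.coef (fun z => (C : ℂ) * GG ε e m (2 * m) (n * (1 - z))) n‖ ≤
      MPV.A (1 / 4 + e) n := by
    unfold MPV.A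
    exact le_iSup₂ (f := fun (f : ℂ → ℂ) (_ : f ∈ MPV.S (1 / 4 + e)) =>
      ENNReal.ofReal ‖MPV.coef f n‖) _ hmem
  refine le_trans (ENNReal.ofReal_le_ofReal ?_) hle
  -- the coefficient
  have hdk : ∀ k ∈ Finset.Icc m (2 * m),
      DifferentiableOn ℂ (fun z => gk ((1 / 2 : ℝ) ^ k) (n * (1 - z))) (ball 0 1) :=
    fun k _ => fin_comp (gk_diff (by positivity)) hn1
  obtain ⟨r0, hr0, hr0'⟩ := coef_F0 (N := 2 ^ (2 * m)) he hN hn1 n
  choose! r hr1 hr2 using hn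
  have hcoef : MPV.coef (fun z => (C : ℂ) * GG ε e m (2 * m) (n * (1 - z))) n =
      ((C * (r0 + c * ∑ k ∈ Finset.Icc m (2 * m), r k) : ℝ) : ℂ) := by
    rw [fin_coef_smul (fin_comp hGd hn1)]
    have e1 : (fun z : ℂ => GG ε e m (2 * m) (n * (1 - z))) = fun z =>
        F0 e (2 ^ (2 * m)) (n * (1 - z)) + (c : ℂ) * ∑ k ∈ Finset.Icc m (2 * m),
          gk ((1 / 2 : ℝ) ^ k) (n * (1 - z)) := rfl
    have hsd : DifferentiableOn ℂ (fun z => ∑ k ∈ Finset.Icc m (2 * m),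
        gk ((1 / 2 : ℝ) ^ k) (n * (1 - z))) (ball 0 1) := DifferentiableOn.fun_sum hdk
    rw [e1, fin_coef_add (fin_comp (F0_diff hN.le) hn1) (hsd.const_mul _),
      fin_coef_smul hsd, fin_coef_sum hdk]
    have e2 : MPV.coef (fun z => F0 e (2 ^ (2 * m)) (n * (1 - z))) n = (r0 : ℂ) := by
      exact hr0'
    rw [e2, Finset.sum_congr rfl hr2]
    push_cast
    ring
  rw [hcoef, Complex.norm_real, Real.norm_eq_abs]
  refine le_trans ?_ (le_abs_self _)
  have hsum : ((m : ℝ) + 1) * (1 / (4200 * n)) ≤ ∑ k ∈ Finset.Icc m (2 * m), r k := by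
    have := Finset.card_nsmul_le_sum (Finset.Icc m (2 * m)) r (1 / (4200 * n)) hr1
    rw [Nat.card_Icc, nsmul_eq_mul] at this
    have e3 : ((2 * m + 1 - m : ℕ) : ℝ) = (m : ℝ) + 1 := by
      rw [show 2 * m + 1 - m = m + 1 by omega]
      push_cast
      ring
    rwa [e3] at this
  have hNe : (1 / 4 : ℝ) ≤ ((2 : ℝ) ^ (2 * m)) ^ (-(2 * e)) := by
    rw [← Real.rpow_natCast, ← Real.rpow_mul (by norm_num)]
    have h1 : (1 / 4 : ℝ) = (2 : ℝ) ^ (-2 : ℝ) := by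
      rw [Real.rpow_neg (by norm_num)]
      norm_num
    rw [h1]
    apply Real.rpow_le_rpow_of_exponent_le (by norm_num)
    push_cast
    have h2 : (m : ℝ) * (2 * e) ≤ 1 := by
      rw [le_div_iff₀ (by positivity)] at hm2
      exact hm2
    nlinarith
  have hcl : Real.sqrt e / 16000 ≤ c := by
    rw [hc, hε]
    have : Real.sqrt e / 4000 * (1 / 4) ≤
        Real.sqrt e / 4000 * ((2 : ℝ) ^ (2 * m)) ^ (-(2 * e)) := by gcongr
    linarith
  have hCl : (n : ℝ) ^ (2 * (1 / 4 + e)) / 2 ≤ C := by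
    rw [hC, le_inv_comm₀ (by positivity) hz1]
    refine hz2.trans (le_of_eq ?_)
    rw [Real.rpow_neg hn0.le, inv_div]
    ring
  have hpow : (n : ℝ) ^ (2 * (1 / 4 + e) - 1) = (n : ℝ) ^ (2 * (1 / 4 + e)) / n := by
    rw [Real.rpow_sub hn0, Real.rpow_one]
  have hX : 0 < (n : ℝ) ^ (2 * (1 / 4 + e)) := by positivity
  rw [hpow]
  calc 1 / 10 ^ 9 / Real.sqrt e * ((n : ℝ) ^ (2 * (1 / 4 + e)) / n) ≤
      (n : ℝ) ^ (2 * (1 / 4 + e)) / 2 * (Real.sqrt e / 16000 *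
        (1 / (2 * e) * (1 / (4200 * n)))) := by
        have e5 : (n : ℝ) ^ (2 * (1 / 4 + e)) / 2 * (Real.sqrt e / 16000 *
            (1 / (2 * e) * (1 / (4200 * n)))) =
            1 / 268800000 / Real.sqrt e * ((n : ℝ) ^ (2 * (1 / 4 + e)) / n) := by
          have : e = Real.sqrt e * Real.sqrt e := by rw [← sq, hs2]
          rw [show (1 / (2 * e) : ℝ) = 1 / (2 * (Real.sqrt e * Real.sqrt e)) by rw [← this]]
          field_simp
          norm_num
        rw [e5]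
        gcongr
        norm_num
    _ ≤ C * (c * (((m : ℝ) + 1) * (1 / (4200 * n)))) := by gcongr
    _ ≤ C * (c * ∑ k ∈ Finset.Icc m (2 * m), r k) := by
        have : 0 ≤ c := le_trans (by positivity) hcl
        gcongr
    _ ≤ C * (r0 + c * ∑ k ∈ Finset.Icc m (2 * m), r k) := by
        gcongr
        linarith

end KQB
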